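import Pool.Agent.Q245.Vj.Equiv

set_option autoImplicit false

namespace Pool.Agent.Q245.Vj

open Polynomial

/-- the binary form `∑ g_i x^i y^(r - i)` -/
noncomputable def form (r : ℕ) (g : ℤ[X]) (x y : ℤ) : ℤ :=
  ∑ i ∈ Finset.range (r + 1), g.coeff i * x ^ i * y ^ (r - i)

lemma form_le (r : ℕ) (g : ℤ[X]) : ∃ K : ℝ, 0 < K ∧ ∀ x y : ℤ, IsCoprime x y →
    |(form r g x y : ℝ)| ≤ K * (max |(x : ℝ)| |(y : ℝ)|) ^ r := by
  refine ⟨1 + ∑ i ∈ Finset.range (r + 1), |(g.coeff i : ℝ)|, by positivity, ?_⟩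
  intro x y hxy
  set H := max |(x : ℝ)| |(y : ℝ)| with hH
  have hH1 : 1 ≤ H := one_le_H hxy
  have h1 : |(form r g x y : ℝ)| ≤ ∑ i ∈ Finset.range (r + 1), |(g.coeff i : ℝ)| * H ^ r := by
    unfold form
    push_cast
    refine (Finset.abs_sum_le_sum_abs _ _).trans (Finset.sum_le_sum ?_)
    intro i hi
    rw [abs_mul, abs_mul, abs_pow, abs_pow, mul_assoc]
    apply mul_le_mul_of_nonneg_left _ (abs_nonneg _)
    have hi' : i ≤ r := by
      have := Finset.mem_range.mp hi; omega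
    calc |(x : ℝ)| ^ i * |(y : ℝ)| ^ (r - i) ≤ H ^ i * H ^ (r - i) := by
          gcongr
          · exact le_max_left _ _
          · exact le_max_right _ _
      _ = H ^ r := by rw [← pow_add]; congr 1; omega
  refine h1.trans ?_
  rw [← Finset.sum_mul]
  apply mul_le_mul_of_nonneg_right _ (by positivity)
  linarith

lemma form_zero (r : ℕ) (g : ℤ[X]) (hg : g ≠ 0) (hr : g.natDegree ≤ r) :
    ∃ K : ℝ, 1 ≤ K ∧ ∀ x y : ℤ, IsCoprime x y → form r g x y = 0 →
      max |(x : ℝ)| |(y : ℝ)| ≤ K := by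
  classical
  set q : ℚ[X] := g.map (Int.castRingHom ℚ) with hq
  have hq0 : q ≠ 0 := by
    rw [hq]
    exact (Polynomial.map_ne_zero_iff (Int.castRingHom ℚ).injective_int).mpr hg
  refine ⟨1 + ∑ ρ ∈ q.roots.toFinset, (|(ρ.num : ℝ)| + ρ.den), ?_, ?_⟩
  · have : 0 ≤ ∑ ρ ∈ q.roots.toFinset, (|(ρ.num : ℝ)| + ρ.den) :=
      Finset.sum_nonneg fun _ _ => by positivity
    linarith
  intro x y hxy hf
  have hnn : 0 ≤ ∑ ρ ∈ q.roots.toFinset, (|(ρ.num : ℝ)| + ρ.den) :=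
    Finset.sum_nonneg fun _ _ => by positivity
  by_cases hy : y = 0
  · subst hy
    have hx : IsUnit x := isCoprime_zero_right.mp hxy
    have hx1 : |(x : ℝ)| = 1 := by
      rcases Int.isUnit_iff.mp hx with h | h <;> simp [h]
    rw [hx1]
    simp only [Int.cast_zero, abs_zero]
    rw [max_eq_left zero_le_one]
    linarith
  -- the point `x / y` is a root
  have hroot : q.eval ((x : ℚ) / y) = 0 := by
    have hyQ : (y : ℚ) ≠ 0 := by exact_mod_cast hy
    have hdeg : q.natDegree < r + 1 := by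
      have : q.natDegree ≤ g.natDegree := Polynomial.natDegree_map_le
      omega
    have h1 : q.eval ((x : ℚ) / y) * (y : ℚ) ^ r = (form r g x y : ℚ) := by
      rw [Polynomial.eval_eq_sum_range' hdeg, Finset.sum_mul]
      unfold form
      push_cast
      apply Finset.sum_congr rfl
      intro i hi
      have hi' : i ≤ r := by
        have := Finset.mem_range.mp hi; omega
      rw [hq, Polynomial.coeff_map]
      simp only [eq_intCast]
      have e : (y : ℚ) ^ r = y ^ i * y ^ (r - i) := by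
        rw [← pow_add]; congr 1; omega
      rw [e, div_pow]
      field_simp
    rw [hf] at h1
    have h2 : (y : ℚ) ^ r ≠ 0 := pow_ne_zero _ hyQ
    have h3 : q.eval ((x : ℚ) / y) * (y : ℚ) ^ r = 0 := by rw [h1]; simp
    exact (mul_eq_zero.mp h3).resolve_right h2
  have hmem : ((x : ℚ) / y) ∈ q.roots.toFinset := by
    rw [Multiset.mem_toFinset, Polynomial.mem_roots hq0]
    exact hroot
  have hterm := Finset.single_le_sum (f := fun ρ : ℚ => |(ρ.num : ℝ)| + (ρ.den : ℝ))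
    (fun _ _ => by positivity) hmem
  have hnd : |((((x : ℚ) / y).num : ℤ) : ℝ)| = |(x : ℝ)| ∧
      ((((x : ℚ) / y).den : ℕ) : ℝ) = |(y : ℝ)| := by
    have hcop : Nat.Coprime x.natAbs y.natAbs := Int.isCoprime_iff_gcd_eq_one.mp hxy
    rcases lt_or_gt_of_ne hy with hyn | hyp
    · have e : ((x : ℚ) / y) = ((-x : ℤ) : ℚ) / ((-y : ℤ) : ℚ) := by
        push_cast; rw [neg_div_neg_eq]
      have h1 := Rat.num_div_eq_of_coprime (a := -x) (b := -y) (by linarith)
        (by rw [Int.natAbs_neg, Int.natAbs_neg]; exact hcop)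
      have h2 := Rat.den_div_eq_of_coprime (a := -x) (b := -y) (by linarith)
        (by rw [Int.natAbs_neg, Int.natAbs_neg]; exact hcop)
      rw [e, h1]
      constructor
      · push_cast; rw [abs_neg]
      · have h3 : (((((-x : ℤ) : ℚ) / ((-y : ℤ) : ℚ)).den : ℤ) : ℝ) = ((-y : ℤ) : ℝ) := by
          rw [h2]
        rw [Int.cast_natCast] at h3
        rw [h3]
        push_cast
        rw [abs_of_neg (by exact_mod_cast hyn)]
    · have h1 := Rat.num_div_eq_of_coprime (a := x) (b := y) hyp hcop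
      have h2 := Rat.den_div_eq_of_coprime (a := x) (b := y) hyp hcop
      rw [h1]
      constructor
      · rfl
      · have h3 : ((((x : ℚ) / (y : ℚ)).den : ℤ) : ℝ) = ((y : ℤ) : ℝ) := by
          rw [h2]
        rw [Int.cast_natCast] at h3
        rw [h3]
        rw [abs_of_pos (by exact_mod_cast hyp)]
  rw [hnd.1, hnd.2] at hterm
  apply max_le
  · linarith [abs_nonneg (y : ℝ)]
  · linarith [abs_nonneg (x : ℝ)]

lemma cubic_of_larger (F : ℤ → ℤ → ℤ) (q r : ℕ) (g : ℤ[X]) (hg : g ≠ 0)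
    (hr : g.natDegree ≤ r) (h : Truncated (r + q) (fun x y => F x y * form r g x y)) :
    Truncated q F := by
  intro ε hε
  obtain ⟨κ, H⟩ := h ε hε
  obtain ⟨K, hK, hKf⟩ := form_le r g
  obtain ⟨Z, hZ, hZf⟩ := form_zero r g hg hr
  have hZe : ∀ h : ℝ, 1 ≤ h → h ≤ Z → h ^ ((q : ℝ) - 2 - ε) ≤ 1 + Z ^ ((q : ℝ) - 2 - ε) := by
    intro h h1 h2
    have hZ0 : 0 < Z := by linarith
    rcases le_total 0 ((q : ℝ) - 2 - ε) with h0 | h0
    · have := Real.rpow_le_rpow (by linarith) h2 h0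
      linarith
    · have := Real.rpow_le_one_of_one_le_of_nonpos h1 h0
      have : 0 ≤ Z ^ ((q : ℝ) - 2 - ε) := by positivity
      linarith
  refine ⟨|κ| * K + (1 + Z ^ ((q : ℝ) - 2 - ε)), ?_⟩
  intro x y hxy hF
  have hρ := one_le_rad (F x y)
  have hH1 := one_le_H hxy
  set h₀ : ℝ := max |(x : ℝ)| |(y : ℝ)| with hh₀
  have hh0 : 0 < h₀ := by linarith
  have hZ0 : 0 < Z := by linarith
  by_cases hG : form r g x y = 0
  · have h1 := hZe h₀ hH1 (hZf x y hxy hG)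
    calc h₀ ^ ((q : ℝ) - 2 - ε) ≤ 1 + Z ^ ((q : ℝ) - 2 - ε) := h1
      _ ≤ |κ| * K + (1 + Z ^ ((q : ℝ) - 2 - ε)) := by
          have : 0 ≤ |κ| * K := by positivity
          linarith
      _ ≤ _ := le_mul_of_one_le_right (by positivity) hρ
  · have h1 := H x y hxy (mul_ne_zero hF hG)
    have h2 : (rad (F x y * form r g x y) : ℝ) ≤ rad (F x y) * (K * h₀ ^ r) := by
      refine (rad_mul_le' _ _).trans ?_
      apply mul_le_mul_of_nonneg_left _ (by positivity)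
      exact (rad_le_abs hG).trans (hKf x y hxy)
    have h3 : h₀ ^ (((r + q : ℕ) : ℝ) - 2 - ε) = h₀ ^ ((q : ℝ) - 2 - ε) * h₀ ^ r := by
      rw [← Real.rpow_natCast h₀ r, ← Real.rpow_add hh0]
      congr 1; push_cast; ring
    rw [h3] at h1
    have h4 : h₀ ^ ((q : ℝ) - 2 - ε) * h₀ ^ r ≤ (|κ| * K * rad (F x y)) * h₀ ^ r := by
      calc h₀ ^ ((q : ℝ) - 2 - ε) * h₀ ^ r ≤ κ * rad (F x y * form r g x y) := h1
        _ ≤ |κ| * rad (F x y * form r g x y) :=
            mul_le_mul_of_nonneg_right (le_abs_self _) (by positivity)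
        _ ≤ |κ| * (rad (F x y) * (K * h₀ ^ r)) := mul_le_mul_of_nonneg_left h2 (abs_nonneg _)
        _ = _ := by ring
    have h5 := le_of_mul_le_mul_right h4 (by positivity)
    calc h₀ ^ ((q : ℝ) - 2 - ε) ≤ |κ| * K * rad (F x y) := h5
      _ ≤ (|κ| * K + (1 + Z ^ ((q : ℝ) - 2 - ε))) * rad (F x y) := by
          apply mul_le_mul_of_nonneg_right _ (by positivity)
          have : 0 ≤ Z ^ ((q : ℝ) - 2 - ε) := by positivity
          linarith

lemma key (k : ℕ) (G : ℤ → ℤ → ℤ) (e p q δ c μ : ℤ) (he : e ≠ 0) (hp : p ≠ 0) (hδ : δ ≠ 0)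
    (hG : ∀ x y, e * G x y = (p * x + q * y) ^ (k + 2) - δ * y ^ (k + 2)) (hc0 : c ≠ 0)
    (hc : c ≡ 1 [ZMOD ((k + 2 : ℕ) : ℤ)]) (hμ : δ * c = μ ^ (k + 2)) :
    (Truncated (k + 3) (fun x y => y * G x y) ↔ ABC) ∧
      ∀ (r : ℕ) (g : ℤ[X]), g ≠ 0 → g.natDegree ≤ r →
        Truncated (r + (k + 3)) (fun x y => y * G x y * form r g x y) → ABC := by
  have key : Truncated (k + 3) (fun x y => y * G x y) → ABC := fun h =>
    abc_of_four k (four_of_Tn k δ hδ (Tn_of_form k G e p q δ he hp hG h) c μ hc0 hc hμ)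
  refine ⟨⟨key, form_of_abc k G e p q δ he hp hδ hG⟩, ?_⟩
  intro r g hg hr h
  exact key (cubic_of_larger (fun x y => y * G x y) (k + 3) r g hg hr h)

/-- the main theorem -/
theorem main (n : ℕ) (hn : 2 ≤ n) (G : ℤ → ℤ → ℤ) (e p q δ c μ : ℤ) (he : e ≠ 0) (hp : p ≠ 0)
    (hδ : δ ≠ 0) (hG : ∀ x y, e * G x y = (p * x + q * y) ^ n - δ * y ^ n) (hc0 : c ≠ 0)
    (hc : c ≡ 1 [ZMOD (n : ℤ)]) (hμ : δ * c = μ ^ n) :
    (Truncated (n + 1) (fun x y => y * G x y) ↔ ABC) ∧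
      ∀ (r : ℕ) (g : ℤ[X]), g ≠ 0 → g.natDegree ≤ r →
        Truncated (r + (n + 1)) (fun x y => y * G x y * form r g x y) → ABC := by
  obtain ⟨k, rfl⟩ : ∃ k, n = k + 2 := ⟨n - 2, by omega⟩
  exact key k G e p q δ c μ he hp hδ hG hc0 hc hμ

theorem main_two (a b c : ℤ) (ha : a ≠ 0) (j : ℕ) (m : ℤ) (hm : Odd m)
    (hd : b ^ 2 - 4 * a * c = 4 ^ j * m) :
    (Truncated 3 (fun x y => y * (a * x ^ 2 + b * x * y + c * y ^ 2)) ↔ ABC) ∧
      ∀ (r : ℕ) (g : ℤ[X]), g ≠ 0 → g.natDegree ≤ r →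
        Truncated (r + 3) (fun x y => y * (a * x ^ 2 + b * x * y + c * y ^ 2) * form r g x y) →
          ABC := by
  have hm0 : m ≠ 0 := by
    rintro rfl
    simp at hm
  have hδ : b ^ 2 - 4 * a * c ≠ 0 := by
    rw [hd]; positivity
  apply main 2 le_rfl (fun x y => a * x ^ 2 + b * x * y + c * y ^ 2) (4 * a) (2 * a) b
    (b ^ 2 - 4 * a * c) m (2 ^ j * m) (by positivity) (by positivity) hδ (fun x y => by ring) hm0
  · obtain ⟨i, hi⟩ := hm
    rw [hi]
    exact (Int.modEq_iff_dvd.mpr ⟨-i, by push_cast; ring⟩)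
  · rw [hd]
    have : (4 : ℤ) ^ j = 2 ^ j * 2 ^ j := by rw [← mul_pow]; norm_num
    rw [this]; ring

end Pool.Agent.Q245.Vj
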