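import Pool.Agent.Q245.Vj.Rad

set_option autoImplicit false

namespace Pool.Agent.Q245.Vj

/-- the cofactor of `(u - v)²` in `u^(m+2) - (m+2) u v^(m+1) + (m+1) v^(m+2)` -/
def S (u v : ℤ) : ℕ → ℤ
  | 0 => 1
  | (m + 1) => u * S u v m + (m + 2) * v ^ (m + 1)

lemma S_id (u v : ℤ) (m : ℕ) :
    (u - v) ^ 2 * S u v m = u ^ (m + 2) - (m + 2) * u * v ^ (m + 1) + (m + 1) * v ^ (m + 2) := by
  induction m with
  | zero => simp [S]; ring
  | succ m ih =>
    rw [S]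
    have : (u - v) ^ 2 * (u * S u v m + (m + 2) * v ^ (m + 1))
        = u * ((u - v) ^ 2 * S u v m) + (u - v) ^ 2 * ((m + 2) * v ^ (m + 1)) := by ring
    rw [this, ih]
    push_cast
    ring

/-- the constant in the bound for `S` -/
def Kc : ℕ → ℕ
  | 0 => 1
  | (m + 1) => Kc m + (m + 2)

lemma S_pos (u v : ℤ) (hu : 0 < u) (hv : 0 < v) (m : ℕ) : 0 < S u v m := by
  induction m with
  | zero => simp [S]
  | succ m ih => rw [S]; positivity

lemma S_neg (u v : ℤ) (m : ℕ) : S (-u) (-v) m = (-1) ^ m * S u v m := by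
  induction m with
  | zero => simp [S]
  | succ m ih => rw [S, S, ih, neg_pow v]; ring

lemma S_ne_neg (u v : ℤ) (hu : u < 0) (hv : v < 0) (m : ℕ) : S u v m ≠ 0 := by
  have h := S_neg (-u) (-v) m
  rw [neg_neg, neg_neg] at h
  rw [h]
  exact mul_ne_zero (pow_ne_zero _ (by norm_num)) (S_pos _ _ (by linarith) (by linarith) m).ne'

lemma S_even (u v : ℤ) (i : ℕ) :
    ∃ R : ℤ, 0 ≤ R ∧ S u v (2 * i) = (i + 1) * v ^ (2 * i) + (u + v) ^ 2 * R := by
  induction i with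
  | zero => exact ⟨0, le_rfl, by simp [S]⟩
  | succ i ih =>
    obtain ⟨R, hR, h⟩ := ih
    have hv : 0 ≤ v ^ (2 * i) := by rw [pow_mul]; positivity
    refine ⟨u ^ 2 * R + (i + 1) * v ^ (2 * i), by positivity, ?_⟩
    rw [show 2 * (i + 1) = 2 * i + 1 + 1 by ring, S, S, h]
    push_cast
    ring

lemma S_even_pos (u v : ℤ) (hv : v ≠ 0) (i : ℕ) : 0 < S u v (2 * i) := by
  obtain ⟨R, hR, h⟩ := S_even u v i
  rw [h]
  have : 0 < v ^ (2 * i) := by rw [pow_mul]; positivity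
  positivity

lemma Kc_pos (m : ℕ) : 0 < Kc m := by
  induction m with
  | zero => simp [Kc]
  | succ m ih => rw [Kc]; omega

lemma S_le (u v T : ℤ) (huT : |u| ≤ T) (hvT : |v| ≤ T) (m : ℕ) :
    |S u v m| ≤ Kc m * T ^ m := by
  have hT : 0 ≤ T := (abs_nonneg _).trans huT
  induction m with
  | zero => simp [S, Kc]
  | succ m ih =>
    rw [S, Kc]
    have h1 : |u * S u v m| ≤ T * (Kc m * T ^ m) := by
      rw [abs_mul]; exact mul_le_mul huT ih (abs_nonneg _) hT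
    have h2 : |((m : ℤ) + 2) * v ^ (m + 1)| ≤ (m + 2) * T ^ (m + 1) := by
      rw [abs_mul, abs_pow, abs_of_pos (by positivity : (0 : ℤ) < (m : ℤ) + 2)]
      apply mul_le_mul_of_nonneg_left _ (by positivity)
      exact pow_le_pow_left₀ (abs_nonneg _) hvT _
    push_cast
    calc |u * S u v m + (m + 2) * v ^ (m + 1)|
        ≤ |u * S u v m| + |((m : ℤ) + 2) * v ^ (m + 1)| := abs_add_le _ _
      _ ≤ T * (Kc m * T ^ m) + (m + 2) * T ^ (m + 1) := by linarith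
      _ = (Kc m + (m + 2)) * T ^ (m + 1) := by ring

lemma S_le_real (u v : ℤ) (T : ℝ) (huT : |(u : ℝ)| ≤ T) (hvT : |(v : ℝ)| ≤ T) (m : ℕ) :
    |(S u v m : ℝ)| ≤ Kc m * T ^ m := by
  have hT : 0 ≤ T := (abs_nonneg _).trans huT
  have h := S_le u v (max |u| |v|) (le_max_left _ _) (le_max_right _ _) m
  have h1 : |(S u v m : ℝ)| ≤ ((Kc m * (max |u| |v|) ^ m : ℤ) : ℝ) := by exact_mod_cast h
  refine h1.trans ?_
  push_cast
  apply mul_le_mul_of_nonneg_left _ (by positivity)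
  apply pow_le_pow_left₀ (by positivity)
  exact max_le huT hvT

lemma radW (δ W P u v : ℤ) (T : ℝ) (m : ℕ) (hW : W ≠ 0) (hP : P ≠ 0)
    (hid : P * W = -δ * ((u - v) ^ 2 * S u v m)) (hu : 0 < u) (hv : 0 < v) (huT : (u : ℝ) ≤ T)
    (hvT : (v : ℝ) ≤ T) : (rad W : ℝ) ≤ |(δ : ℝ)| * Kc m * T ^ (m + 1) := by
  have hPW : P * W ≠ 0 := mul_ne_zero hP hW
  have huR : (0 : ℝ) < u := by exact_mod_cast hu
  have hvR : (0 : ℝ) < v := by exact_mod_cast hv
  have hT : 0 < T := by linarith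
  have hne : δ * (u - v) * S u v m ≠ 0 := by
    intro h0
    apply hPW
    rw [hid]
    have : -δ * ((u - v) ^ 2 * S u v m) = (δ * (u - v) * S u v m) * (-(u - v)) := by ring
    rw [this, h0, zero_mul]
  have h1 : rad W ≤ rad (P * W) := rad_le_of_dvd hPW (Dvd.intro_left _ rfl)
  have h2 : rad (P * W) ≤ rad (δ * (u - v) * S u v m) := by
    apply rad_le_of_dvd_pow hne 2
    rw [hid]
    exact ⟨-(δ * S u v m), by ring⟩
  have h3 : (rad (δ * (u - v) * S u v m) : ℝ) ≤ |((δ * (u - v) * S u v m : ℤ) : ℝ)| :=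
    rad_le_abs hne
  have h4 : |(u : ℝ) - v| ≤ T := by
    rw [abs_le]; constructor <;> linarith
  have h5 : |((δ * (u - v) * S u v m : ℤ) : ℝ)| ≤ |(δ : ℝ)| * Kc m * T ^ (m + 1) := by
    have hS := S_le_real u v T (by rwa [abs_of_pos huR]) (by rwa [abs_of_pos hvR]) m
    push_cast
    rw [abs_mul, abs_mul]
    calc |(δ : ℝ)| * |(u : ℝ) - v| * |(S u v m : ℝ)| ≤ |(δ : ℝ)| * T * (Kc m * T ^ m) := by
          gcongr
      _ = |(δ : ℝ)| * Kc m * T ^ (m + 1) := by ring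
  have h12 : (rad W : ℝ) ≤ rad (δ * (u - v) * S u v m) := by exact_mod_cast h1.trans h2
  exact h12.trans (h3.trans h5)

end Pool.Agent.Q245.Vj
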