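import Pool.Agent.Q245.Vj.Core

set_option autoImplicit false
set_option maxHeartbeats 1000000

namespace Pool.Agent.Q245.Vj

lemma id_pos (N a Q : ℕ) (hQ : a * N = Q + 1) (P x y B δ μ : ℤ)
    (hμ : μ ^ N = δ * (P + 1)) (hB : B = y ^ N - x ^ N) :
    P * ((μ * (P + 1) ^ a * (x * B ^ a)) ^ N - δ * (P ^ a * y ^ (Q + 2)) ^ N)
      = -δ * ((P * y ^ N) ^ (Q + 2) - (P + 1) * (P * y ^ N) * ((P + 1) * B) ^ (Q + 1)
          + P * ((P + 1) * B) ^ (Q + 2)) := by
  generalize hc : P + 1 = c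
  rw [hc] at hμ
  have e1 : (μ * c ^ a * (x * B ^ a)) ^ N = μ ^ N * c ^ (Q + 1) * (x ^ N * B ^ (Q + 1)) := by
    rw [mul_pow, mul_pow, mul_pow, ← pow_mul, ← pow_mul, hQ]
  have e2 : (P ^ a * y ^ (Q + 2)) ^ N = P ^ (Q + 1) * (y ^ N) ^ (Q + 2) := by
    rw [mul_pow, ← pow_mul, hQ, ← pow_mul, ← pow_mul, mul_comm (Q + 2) N]
  rw [e1, e2]
  generalize y ^ N = C at *
  generalize x ^ N = A at *
  generalize μ ^ N = m at *
  linear_combination (P * c ^ (Q + 1) * B ^ (Q + 1) * A) * hμ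
    + (P * c ^ (Q + 2) * δ * B ^ (Q + 1)) * hB

lemma id_neg (N a Q : ℕ) (hQ : a * N = Q + 2) (P x y B δ μ : ℤ)
    (hμ : μ ^ N = -δ * P) (hB : B = y ^ N - x ^ N) :
    1 * ((μ * (P + 1) ^ a * (x * y ^ (Q + 1))) ^ N - δ * (P ^ a * B ^ a) ^ N)
      = -δ * ((P * B) ^ (Q + 2) - (P + 1) * (P * B) * ((P + 1) * y ^ N) ^ (Q + 1)
          + P * ((P + 1) * y ^ N) ^ (Q + 2)) := by
  generalize hc : P + 1 = c
  have e1 : (μ * c ^ a * (x * y ^ (Q + 1))) ^ N
      = μ ^ N * c ^ (Q + 2) * (x ^ N * (y ^ N) ^ (Q + 1)) := by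
    rw [mul_pow, mul_pow, mul_pow, ← pow_mul, hQ, ← pow_mul, ← pow_mul, mul_comm (Q + 1) N]
  have e2 : (P ^ a * B ^ a) ^ N = P ^ (Q + 2) * B ^ (Q + 2) := by
    rw [mul_pow, ← pow_mul, ← pow_mul, hQ]
  rw [e1, e2]
  generalize y ^ N = C at *
  generalize x ^ N = A at *
  generalize μ ^ N = m at *
  linear_combination (c ^ (Q + 2) * C ^ (Q + 1) * A) * hμ
    - (P * c ^ (Q + 2) * δ * C ^ (Q + 1)) * hB

lemma cop_By {x y : ℤ} (k : ℕ) (h : IsCoprime x y) : IsCoprime (y ^ (k + 1) - x ^ (k + 1)) y := by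
  have h1 : IsCoprime (-x ^ (k + 1)) y := (IsCoprime.pow_left h).neg_left
  have h2 := h1.add_mul_left_left (y ^ k)
  have e : -x ^ (k + 1) + y * y ^ k = y ^ (k + 1) - x ^ (k + 1) := by ring
  rwa [e] at h2

lemma cop_xB {x y : ℤ} (k : ℕ) (h : IsCoprime x y) : IsCoprime x (y ^ (k + 1) - x ^ (k + 1)) := by
  have h1 : IsCoprime x (y ^ (k + 1)) := IsCoprime.pow_right h
  have h2 := h1.add_mul_left_right (-x ^ k)
  have e : y ^ (k + 1) + x * -x ^ k = y ^ (k + 1) - x ^ (k + 1) := by ring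
  rwa [e] at h2

lemma four_pos (k : ℕ) (δ : ℤ) (hδ : δ ≠ 0) (hT : Tn (k + 2) δ) (Q a : ℕ)
    (hQ : a * (k + 2) = Q + 1) (μ : ℤ) (hμ : μ ^ (k + 2) = δ * (Q + 2)) : Four (k + 2) := by
  intro ε hε hε1
  have hμ0 : μ ≠ 0 := by
    rintro rfl
    have : δ * ((Q : ℤ) + 2) ≠ 0 := mul_ne_zero hδ (by positivity)
    exact this (by simpa using hμ.symm)
  set P : ℤ := Q + 1 with hP
  have hPpos : 0 < P := by positivity
  have hμ' : μ ^ (k + 2) = δ * (P + 1) := by rw [hμ, hP]; ring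
  have hδpos : (0 : ℝ) < |(δ : ℝ)| := abs_pos.mpr (by exact_mod_cast hδ)
  have hPR : (0 : ℝ) < P := by exact_mod_cast hPpos
  obtain ⟨κ, hκ, H⟩ := core k δ hδ hT (Q + 1) (μ * (P + 1) ^ a) (P ^ a)
    (mul_ne_zero hμ0 (by positivity)) (by positivity)
    (|(δ : ℝ)| * Kc Q * ((P : ℝ) + 1) ^ (Q + 1)) 1
    (by have := Kc_pos Q; positivity) one_pos ε hε hε1
  refine ⟨κ + (P + 1), by positivity, ?_⟩
  intro x y hx hxy hcop
  have hy : 0 < y := by linarith
  have hxyN : x ^ (k + 2) < y ^ (k + 2) := pow_lt_pow_left₀ hxy hx.le (by omega)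
  have hB : 0 < y ^ (k + 2) - x ^ (k + 2) := by linarith
  have hyR : (1 : ℝ) ≤ y := by exact_mod_cast hy
  have hne : x * y * (y ^ (k + 2) - x ^ (k + 2)) ≠ 0 := by positivity
  by_cases hdeg : (P + 1) * x ^ (k + 2) = y ^ (k + 2)
  · -- degenerate
    have hx1 : IsUnit x := by
      apply (IsCoprime.pow_right (n := k + 2) hcop).isUnit_of_dvd
      rw [← hdeg]
      exact ⟨(P + 1) * x ^ (k + 1), by ring⟩
    have hx1' : x = 1 := by
      rcases Int.isUnit_iff.mp hx1 with h | h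
      · exact h
      · omega
    subst hx1'
    have hy2 : (y : ℝ) ^ (k + 2) = P + 1 := by
      have : y ^ (k + 2) = P + 1 := by rw [← hdeg]; ring
      exact_mod_cast this
    have h1 : (y : ℝ) ^ (((k + 2 : ℕ) : ℝ) - ε) ≤ P + 1 := by
      calc (y : ℝ) ^ (((k + 2 : ℕ) : ℝ) - ε) ≤ (y : ℝ) ^ ((k + 2 : ℕ) : ℝ) :=
            Real.rpow_le_rpow_of_exponent_le hyR (by linarith)
        _ = P + 1 := by rw [← hy2, Real.rpow_natCast]
    have h2 := one_le_rad (1 * y * (y ^ (k + 2) - 1 ^ (k + 2)))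
    calc (y : ℝ) ^ (((k + 2 : ℕ) : ℝ) - ε) ≤ P + 1 := h1
      _ ≤ (P + 1) * rad (1 * y * (y ^ (k + 2) - 1 ^ (k + 2))) :=
          le_mul_of_one_le_right (by positivity) h2
      _ ≤ (κ + (P + 1)) * rad (1 * y * (y ^ (k + 2) - 1 ^ (k + 2))) := by
          apply mul_le_mul_of_nonneg_right _ (by positivity)
          linarith
  · set B : ℤ := y ^ (k + 2) - x ^ (k + 2) with hBdef
    have hid := id_pos (k + 2) a Q hQ P x y B δ μ hμ' hBdef
    have hS := S_id (P * y ^ (k + 2)) ((P + 1) * B) Q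
    have hcast : (Q : ℤ) + 2 = P + 1 := by rw [hP]; ring
    rw [hcast, ← hP] at hS
    rw [← hS] at hid
    have hu : 0 < P * y ^ (k + 2) := by positivity
    have hv : 0 < (P + 1) * B := by positivity
    have huv : P * y ^ (k + 2) - (P + 1) * B ≠ 0 := by
      intro h0
      apply hdeg
      rw [hBdef] at h0
      linarith
    have hW : (μ * (P + 1) ^ a * (x * B ^ a)) ^ (k + 2)
        - δ * (P ^ a * y ^ (Q + 2)) ^ (k + 2) ≠ 0 := by
      intro h0
      rw [h0, mul_zero] at hid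
      have hSp := S_pos _ _ hu hv Q
      have : -δ * ((P * y ^ (k + 2) - (P + 1) * B) ^ 2 * S (P * y ^ (k + 2)) ((P + 1) * B) Q) ≠ 0 :=
        mul_ne_zero (neg_ne_zero.mpr hδ) (mul_ne_zero (pow_ne_zero 2 huv) hSp.ne')
      exact this hid.symm
    have huT : ((P * y ^ (k + 2) : ℤ) : ℝ) ≤ ((P : ℝ) + 1) * (y : ℝ) ^ (k + 2) := by
      push_cast
      have : (0 : ℝ) ≤ (y : ℝ) ^ (k + 2) := by positivity
      linarith
    have hvT : (((P + 1) * B : ℤ) : ℝ) ≤ ((P : ℝ) + 1) * (y : ℝ) ^ (k + 2) := by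
      rw [hBdef]; push_cast
      have hxR : (0 : ℝ) < x := by exact_mod_cast hx
      have : (0 : ℝ) ≤ (x : ℝ) ^ (k + 2) := by positivity
      apply mul_le_mul_of_nonneg_left _ (by positivity)
      linarith
    have hrad := radW δ _ P _ _ _ Q hW hPpos.ne' hid hu hv huT hvT
    have hst : IsCoprime (x * B ^ a) (y ^ (Q + 2)) := by
      apply IsCoprime.pow_right
      exact IsCoprime.mul_left hcop (IsCoprime.pow_left (cop_By (k + 1) hcop))
    have hfin := H (x * B ^ a) (y ^ (Q + 2)) y hyR hst (by positivity) (by positivity)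
      (by
        right
        have e1 : (μ * (P + 1) ^ a * (x * B ^ a)) ^ (k + 2)
            = (δ * (P + 1)) * ((P + 1) ^ a * (x * B ^ a)) ^ (k + 2) := by
          rw [← hμ', ← mul_pow]; ring
        rw [e1]
        have e2 : δ * (δ * (P + 1) * ((P + 1) ^ a * (x * B ^ a)) ^ (k + 2)) *
            (P ^ a * y ^ (Q + 2)) ^ (k + 2) = δ ^ 2 * ((P + 1) *
            ((P + 1) ^ a * (x * B ^ a)) ^ (k + 2) * (P ^ a * y ^ (Q + 2)) ^ (k + 2)) := by ring
        rw [e2]
        positivity) hW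
      (by
        refine hrad.trans (le_of_eq ?_)
        rw [mul_pow, mul_assoc, mul_assoc, mul_assoc])
      (by
        refine le_max_of_le_right ?_
        rw [one_mul]
        have h1 : (1 : ℤ) ≤ P ^ a := one_le_pow₀ (by omega)
        have h2 : y ^ (Q + 2) ≤ P ^ a * y ^ (Q + 2) :=
          le_mul_of_one_le_left (by positivity) h1
        have h3 : (y : ℝ) ^ (Q + 1 + 1) ≤ ((P ^ a * y ^ (Q + 2) : ℤ) : ℝ) := by
          exact_mod_cast h2
        exact h3.trans (le_abs_self _))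
    have hr : rad (x * B ^ a * y ^ (Q + 2)) ≤ rad (x * y * B) := by
      apply rad_le_of_dvd_pow hne (Q + 2 + a)
      have : (x * y * B) ^ (Q + 2 + a)
          = (x * B ^ a * y ^ (Q + 2)) * (x ^ (Q + 1 + a) * y ^ a * B ^ (Q + 2)) := by ring
      rw [this]; exact Dvd.intro _ rfl
    calc (y : ℝ) ^ (((k + 2 : ℕ) : ℝ) - ε) ≤ κ * rad (x * B ^ a * y ^ (Q + 2)) := hfin
      _ ≤ κ * rad (x * y * B) := by
          apply mul_le_mul_of_nonneg_left _ hκ.le
          exact_mod_cast hr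
      _ ≤ (κ + (P + 1)) * rad (x * y * B) := by
          apply mul_le_mul_of_nonneg_right _ (by positivity)
          linarith

lemma four_neg (k : ℕ) (hk : Even k) (δ : ℤ) (hδ : δ ≠ 0) (hT : Tn (k + 2) δ) (Q a : ℕ)
    (hQ : a * (k + 2) = Q + 2) (μ : ℤ) (hμ : μ ^ (k + 2) = -δ * (Q + 1)) : Four (k + 2) := by
  intro ε hε hε1
  have hμ0 : μ ≠ 0 := by
    rintro rfl
    have : -δ * ((Q : ℤ) + 1) ≠ 0 := mul_ne_zero (neg_ne_zero.mpr hδ) (by positivity)
    exact this (by simpa using hμ.symm)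
  have ha : 1 ≤ a := by
    rcases Nat.eq_zero_or_pos a with h | h
    · rw [h] at hQ; omega
    · exact h
  set P : ℤ := Q + 1 with hP
  have hPpos : 0 < P := by positivity
  have hδpos : (0 : ℝ) < |(δ : ℝ)| := abs_pos.mpr (by exact_mod_cast hδ)
  have hPR : (0 : ℝ) < P := by exact_mod_cast hPpos
  obtain ⟨κ, hκ, H⟩ := core k δ hδ hT (Q + 1) (μ * (P + 1) ^ a) (P ^ a)
    (mul_ne_zero hμ0 (by positivity)) (by positivity)
    (|(δ : ℝ)| * Kc Q * ((P : ℝ) + 1) ^ (Q + 1)) ((1 / 2) ^ a)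
    (by have := Kc_pos Q; positivity) (by positivity) ε hε hε1
  refine ⟨κ, hκ, ?_⟩
  intro x y hx hxy hcop
  have hy : 0 < y := by linarith
  have hxyN : x ^ (k + 2) < y ^ (k + 2) := pow_lt_pow_left₀ hxy hx.le (by omega)
  have hB : 0 < y ^ (k + 2) - x ^ (k + 2) := by linarith
  have hyR : (1 : ℝ) ≤ y := by exact_mod_cast hy
  have hxR : (0 : ℝ) < x := by exact_mod_cast hx
  have hne : x * y * (y ^ (k + 2) - x ^ (k + 2)) ≠ 0 := by positivity
  set B : ℤ := y ^ (k + 2) - x ^ (k + 2) with hBdef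
  have hid := id_neg (k + 2) a Q hQ P x y B δ μ hμ hBdef
  have hS := S_id (P * B) ((P + 1) * y ^ (k + 2)) Q
  have hcast : (Q : ℤ) + 2 = P + 1 := by rw [hP]; ring
  rw [hcast, ← hP] at hS
  rw [← hS] at hid
  have hu : 0 < P * B := by positivity
  have hv : 0 < (P + 1) * y ^ (k + 2) := by positivity
  have huv : P * B - (P + 1) * y ^ (k + 2) ≠ 0 := by
    have : P * B - (P + 1) * y ^ (k + 2) = -(P * x ^ (k + 2) + y ^ (k + 2)) := by
      rw [hBdef]; ring
    rw [this]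
    exact neg_ne_zero.mpr (by positivity)
  have hW : (μ * (P + 1) ^ a * (x * y ^ (Q + 1))) ^ (k + 2)
      - δ * (P ^ a * B ^ a) ^ (k + 2) ≠ 0 := by
    intro h0
    rw [h0, mul_zero] at hid
    have hSp := S_pos _ _ hu hv Q
    have : -δ * ((P * B - (P + 1) * y ^ (k + 2)) ^ 2 * S (P * B) ((P + 1) * y ^ (k + 2)) Q) ≠ 0 :=
      mul_ne_zero (neg_ne_zero.mpr hδ) (mul_ne_zero (pow_ne_zero 2 huv) hSp.ne')
    exact this hid.symm
  have huT : ((P * B : ℤ) : ℝ) ≤ ((P : ℝ) + 1) * (y : ℝ) ^ (k + 2) := by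
    rw [hBdef]; push_cast
    have h1 : (0 : ℝ) ≤ (x : ℝ) ^ (k + 2) := by positivity
    have h2 : (0 : ℝ) ≤ (y : ℝ) ^ (k + 2) := by positivity
    nlinarith
  have hvT : (((P + 1) * y ^ (k + 2) : ℤ) : ℝ) ≤ ((P : ℝ) + 1) * (y : ℝ) ^ (k + 2) := by
    push_cast; exact le_rfl
  have hrad := radW δ _ 1 _ _ _ Q hW one_ne_zero hid hu hv huT hvT
  have hst : IsCoprime (x * y ^ (Q + 1)) (B ^ a) := by
    apply IsCoprime.pow_right
    exact IsCoprime.mul_left (cop_xB (k + 1) hcop) (IsCoprime.pow_left (cop_By (k + 1) hcop).symm)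
  have hfin := H (x * y ^ (Q + 1)) (B ^ a) y hyR hst (by positivity) (by positivity)
    (Or.inl hk) hW
    (by
      refine hrad.trans (le_of_eq ?_)
      rw [mul_pow, mul_assoc, mul_assoc, mul_assoc])
    (by
      by_cases h2x : 2 * x ≤ y
      · refine le_max_of_le_right ?_
        have hB2R : (y : ℝ) ^ (k + 2) / 2 ≤ B := by
          have h2xR : (2 : ℝ) * x ≤ y := by exact_mod_cast h2x
          have h1 : (2 * (x : ℝ)) ^ (k + 2) ≤ (y : ℝ) ^ (k + 2) :=
            pow_le_pow_left₀ (by positivity) h2xR _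
          rw [mul_pow] at h1
          have h2 : (2 : ℝ) ≤ 2 ^ (k + 2) := by
            calc (2 : ℝ) = 2 ^ 1 := by norm_num
              _ ≤ 2 ^ (k + 2) := pow_le_pow_right₀ (by norm_num) (by omega)
          have h3 : 2 * (x : ℝ) ^ (k + 2) ≤ 2 ^ (k + 2) * (x : ℝ) ^ (k + 2) := by gcongr
          rw [hBdef]; push_cast
          linarith
        have h1 : (1 : ℝ) ≤ (P : ℝ) ^ a := by
          apply one_le_pow₀
          have : (1 : ℤ) ≤ P := hPpos
          exact_mod_cast this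
        have hBR : (0 : ℝ) < B := by exact_mod_cast hB
        push_cast
        rw [abs_of_pos (by positivity)]
        calc ((1 : ℝ) / 2) ^ a * (y : ℝ) ^ (Q + 1 + 1)
            = ((y : ℝ) ^ (k + 2) / 2) ^ a := by
              rw [div_pow, div_pow, one_pow, ← pow_mul, mul_comm (k + 2) a, hQ]; ring
          _ ≤ (B : ℝ) ^ a := by
              apply pow_le_pow_left₀ (by positivity)
              exact hB2R
          _ ≤ (P : ℝ) ^ a * (B : ℝ) ^ a :=
              le_mul_of_one_le_left (by positivity) h1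
      · push Not at h2x
        refine le_max_of_le_left ?_
        have hxR2 : (y : ℝ) < 2 * x := by exact_mod_cast h2x
        have hμ1 : (1 : ℝ) ≤ |(μ : ℝ)| := by exact_mod_cast Int.one_le_abs hμ0
        have h1 : (1 : ℝ) ≤ ((P : ℝ) + 1) ^ a := by
          apply one_le_pow₀
          linarith
        push_cast
        rw [abs_mul, abs_mul, abs_of_pos (show (0 : ℝ) < ((P : ℝ) + 1) ^ a by positivity),
          abs_of_pos (show (0 : ℝ) < (x : ℝ) * (y : ℝ) ^ (Q + 1) by positivity)]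
        have h2 : (1 : ℝ) ≤ |(μ : ℝ)| * ((P : ℝ) + 1) ^ a := by
          nlinarith
        have h3 : ((1 : ℝ) / 2) ^ a ≤ 1 / 2 := by
          calc ((1 : ℝ) / 2) ^ a ≤ (1 / 2) ^ 1 :=
                pow_le_pow_of_le_one (by norm_num) (by norm_num) ha
            _ = 1 / 2 := pow_one _
        calc ((1 : ℝ) / 2) ^ a * (y : ℝ) ^ (Q + 1 + 1)
            ≤ (1 / 2) * (y : ℝ) ^ (Q + 1 + 1) :=
              mul_le_mul_of_nonneg_right h3 (by positivity)
          _ = (y / 2) * (y : ℝ) ^ (Q + 1) := by ring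
          _ ≤ x * (y : ℝ) ^ (Q + 1) := by
              apply mul_le_mul_of_nonneg_right _ (by positivity)
              linarith
          _ ≤ |(μ : ℝ)| * ((P : ℝ) + 1) ^ a * (x * (y : ℝ) ^ (Q + 1)) :=
              le_mul_of_one_le_left (by positivity) h2)
  have hr : rad (x * y ^ (Q + 1) * B ^ a) ≤ rad (x * y * B) := by
    apply rad_le_of_dvd_pow hne (Q + 1 + a)
    have : (x * y * B) ^ (Q + 1 + a)
        = (x * y ^ (Q + 1) * B ^ a) * (x ^ (Q + a) * y ^ a * B ^ (Q + 1)) := by ring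
    rw [this]; exact Dvd.intro _ rfl
  calc (y : ℝ) ^ (((k + 2 : ℕ) : ℝ) - ε) ≤ κ * rad (x * y ^ (Q + 1) * B ^ a) := hfin
    _ ≤ κ * rad (x * y * B) := by
        apply mul_le_mul_of_nonneg_left _ hκ.le
        exact_mod_cast hr

/-- the statement for `x y (yⁿ - xⁿ)` from the statement for `v (tⁿ - δ vⁿ)`, when `δ c` is an
`n`-th power with `c ≡ 1` modulo `n`, `c > 0` -/
lemma four_of_Tn_pos (k : ℕ) (δ : ℤ) (hδ : δ ≠ 0) (hT : Tn (k + 2) δ) (c μ : ℤ) (hc0 : 0 < c)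
    (hc : c ≡ 1 [ZMOD ((k + 2 : ℕ) : ℤ)]) (hμ : δ * c = μ ^ (k + 2)) : Four (k + 2) := by
  -- replace `c` by `c (k + 3)^(k + 2)`
  set c' : ℤ := c * (k + 3) ^ (k + 2) with hc'
  have hmod : c' ≡ 1 [ZMOD ((k + 2 : ℕ) : ℤ)] := by
    have h1 : ((k : ℤ) + 3) ≡ 1 [ZMOD ((k + 2 : ℕ) : ℤ)] := by
      have : (k : ℤ) + 3 = 1 + ((k + 2 : ℕ) : ℤ) := by push_cast; ring
      rw [this]
      exact Int.add_modEq_right
    have := hc.mul (h1.pow (k + 2))
    simpa [hc'] using this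
  have hbig : 2 ≤ c' := by
    have h1 : (1 : ℤ) < ((k : ℤ) + 3) ^ (k + 2) :=
      one_lt_pow₀ (by linarith [(Nat.cast_nonneg k : (0 : ℤ) ≤ k)]) (by omega)
    rw [hc']
    nlinarith
  obtain ⟨b, hb⟩ := hmod.symm.dvd
  have hb' : c' = 1 + (k + 2) * b := by
    have : c' - 1 = ((k + 2 : ℕ) : ℤ) * b := hb
    push_cast at this
    linarith
  have hbpos : 0 < b := by
    by_contra h
    push Not at h
    have : ((k : ℤ) + 2) * b ≤ 0 := mul_nonpos_of_nonneg_of_nonpos (by positivity) h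
    linarith
  obtain ⟨a, rfl⟩ : ∃ a : ℕ, b = a := ⟨b.toNat, (Int.toNat_of_nonneg hbpos.le).symm⟩
  have ha : 1 ≤ a := by exact_mod_cast hbpos
  obtain ⟨Q, hQ⟩ : ∃ Q : ℕ, a * (k + 2) = Q + 1 := by
    refine ⟨a * (k + 2) - 1, ?_⟩
    have : 1 ≤ a * (k + 2) := Nat.mul_pos ha (by omega)
    omega
  apply four_pos k δ hδ hT Q a hQ (μ * (k + 3))
  have hQ' : (a : ℤ) * (k + 2) = Q + 1 := by exact_mod_cast hQ
  have : (Q : ℤ) + 2 = c' := by rw [hb']; linarith
  rw [this, hc', mul_pow, ← hμ]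
  ring

/-- the statement for `x y (yⁿ - xⁿ)` from the statement for `v (tⁿ - δ vⁿ)`, when `δ c` is an
`n`-th power with `c ≡ 1` modulo `n` -/
lemma four_of_Tn (k : ℕ) (δ : ℤ) (hδ : δ ≠ 0) (hT : Tn (k + 2) δ) (c μ : ℤ) (hc0 : c ≠ 0)
    (hc : c ≡ 1 [ZMOD ((k + 2 : ℕ) : ℤ)]) (hμ : δ * c = μ ^ (k + 2)) : Four (k + 2) := by
  rcases lt_or_gt_of_ne hc0 with hneg | hpos
  · rcases Nat.even_or_odd k with hk | hk
    · obtain ⟨b, hb⟩ := hc.symm.dvd
      have hb' : c = 1 + (k + 2) * b := by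
        have : c - 1 = ((k + 2 : ℕ) : ℤ) * b := hb
        push_cast at this
        linarith
      have hbneg : b < 0 := by
        by_contra h
        push Not at h
        have : 0 ≤ ((k : ℤ) + 2) * b := mul_nonneg (by positivity) h
        linarith
      obtain ⟨a, ha'⟩ : ∃ a : ℕ, b = -a := ⟨(-b).toNat, by
        rw [Int.toNat_of_nonneg (by linarith)]; ring⟩
      have ha : 1 ≤ a := by
        have : (0 : ℤ) < a := by linarith
        exact_mod_cast this
      obtain ⟨Q, hQ⟩ : ∃ Q : ℕ, a * (k + 2) = Q + 2 := by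
        refine ⟨a * (k + 2) - 2, ?_⟩
        have : 1 * 2 ≤ a * (k + 2) := Nat.mul_le_mul ha (by omega)
        omega
      apply four_neg k hk δ hδ hT Q a hQ μ
      have hQ' : (a : ℤ) * (k + 2) = Q + 2 := by exact_mod_cast hQ
      have : (Q : ℤ) + 1 = -c := by rw [hb', ha']; linarith
      rw [this, ← hμ]; ring
    · -- `n` odd: replace `c` by `c (1 - n)^n`
      have hodd : Odd (k + 2) := by
        obtain ⟨i, hi⟩ := hk
        exact ⟨i + 1, by omega⟩
      apply four_of_Tn_pos k δ hδ hT (c * (-(k + 1)) ^ (k + 2)) (μ * (-(k + 1)))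
      · apply mul_pos_of_neg_of_neg hneg
        apply hodd.pow_neg
        linarith [(Nat.cast_nonneg k : (0 : ℤ) ≤ k)]
      · have h1 : (-((k : ℤ) + 1)) ≡ 1 [ZMOD ((k + 2 : ℕ) : ℤ)] := by
          have : (1 : ℤ) = -((k : ℤ) + 1) + ((k + 2 : ℕ) : ℤ) := by push_cast; ring
          conv_rhs => rw [this]
          exact (Int.add_modEq_right).symm
        have := hc.mul (h1.pow (k + 2))
        simpa using this
      · rw [mul_pow, ← hμ]; ring
  · exact four_of_Tn_pos k δ hδ hT c μ hpos hc hμ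

/-- the `abc` conjecture from the statement for `x y (yⁿ - xⁿ)` -/
lemma abc_of_four (k : ℕ) (h : Four (k + 2)) : ABC := by
  intro ε hε
  set ε' : ℝ := ε / (1 + ε) with hε'
  have h1ε : 0 < 1 + ε := by linarith
  have hε'0 : 0 < ε' := by positivity
  have hε'1 : ε' < 1 := by rw [hε', div_lt_one h1ε]; linarith
  have hinv : (1 - ε') * (1 + ε) = 1 := by rw [hε']; field_simp; ring
  obtain ⟨κ, hκ, H⟩ := h ε' hε'0 hε'1
  refine ⟨((k + 2) * κ) ^ (1 + ε), ?_⟩
  intro a b ha hb hab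
  have hcop : IsCoprime a (a + b) := by
    have := hab.add_mul_left_right 1
    rwa [mul_one, add_comm b a] at this
  have h1 := H a (a + b) ha (by linarith) hcop
  set c : ℤ := a + b with hc
  have hc0 : 0 < c := by positivity
  have hcR : (0 : ℝ) < c := by exact_mod_cast hc0
  have hrad : (rad (a * c * (c ^ (k + 2) - a ^ (k + 2))) : ℝ)
      ≤ ((k + 2) * (c : ℝ) ^ (k + 1)) * rad (a * b * c) := by
    set G : ℤ := ∑ i ∈ Finset.range (k + 2), c ^ i * a ^ (k + 2 - 1 - i) with hG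
    have e0 : G * (c - a) = c ^ (k + 2) - a ^ (k + 2) := Commute.geom_sum₂_mul (Commute.all c a) _
    have e : a * c * (c ^ (k + 2) - a ^ (k + 2)) = G * (a * b * c) := by
      rw [← e0, hc]; ring
    have hGpos : 0 < G := by
      apply Finset.sum_pos
      · intro i _; positivity
      · exact ⟨0, Finset.mem_range.mpr (by omega)⟩
    have hGle : G ≤ (k + 2) * c ^ (k + 1) := by
      calc G ≤ ∑ i ∈ Finset.range (k + 2), c ^ (k + 1) := by
            apply Finset.sum_le_sum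
            intro i hi
            have hi' : i ≤ k + 1 := by have := Finset.mem_range.mp hi; omega
            calc c ^ i * a ^ (k + 2 - 1 - i) ≤ c ^ i * c ^ (k + 2 - 1 - i) := by
                  apply mul_le_mul_of_nonneg_left _ (by positivity)
                  apply pow_le_pow_left₀ ha.le
                  linarith
              _ = c ^ (k + 1) := by rw [← pow_add]; congr 1; omega
        _ = (k + 2) * c ^ (k + 1) := by
            rw [Finset.sum_const, Finset.card_range, nsmul_eq_mul]; push_cast; ring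
    rw [e]
    refine (rad_mul_le_abs hGpos.ne').trans ?_
    apply mul_le_mul_of_nonneg_right _ (by positivity)
    rw [abs_of_pos (by exact_mod_cast hGpos)]
    exact_mod_cast hGle
  have h2 : (c : ℝ) ^ (1 - ε') * c ^ (k + 1) ≤ ((k + 2) * κ * rad (a * b * c)) * c ^ (k + 1) := by
    calc (c : ℝ) ^ (1 - ε') * c ^ (k + 1) = (c : ℝ) ^ (((k + 2 : ℕ) : ℝ) - ε') := by
          rw [← Real.rpow_natCast (c : ℝ) (k + 1), ← Real.rpow_add hcR]
          congr 1; push_cast; ring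
      _ ≤ κ * rad (a * c * (c ^ (k + 2) - a ^ (k + 2))) := h1
      _ ≤ κ * (((k + 2) * (c : ℝ) ^ (k + 1)) * rad (a * b * c)) :=
          mul_le_mul_of_nonneg_left hrad hκ.le
      _ = ((k + 2) * κ * rad (a * b * c)) * c ^ (k + 1) := by ring
  have h3 : (c : ℝ) ^ (1 - ε') ≤ (k + 2) * κ * rad (a * b * c) :=
    le_of_mul_le_mul_right h2 (by positivity)
  calc (c : ℝ) = ((c : ℝ) ^ (1 - ε')) ^ (1 + ε) := by
        rw [← Real.rpow_mul hcR.le, hinv, Real.rpow_one]
    _ ≤ ((k + 2) * κ * rad (a * b * c)) ^ (1 + ε) :=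
        Real.rpow_le_rpow (by positivity) h3 h1ε.le
    _ = ((k + 2) * κ) ^ (1 + ε) * (rad (a * b * c) : ℝ) ^ (1 + ε) :=
        Real.mul_rpow (by positivity) (by positivity)

end Pool.Agent.Q245.Vj
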