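import Pool.Agent.Q245.Vj.S

set_option autoImplicit false
set_option maxHeartbeats 1000000

namespace Pool.Agent.Q245.Vj

lemma id_step (k : ℕ) (δ U V : ℤ) :
    ((k + 1) * U ^ (k + 2) + δ * V ^ (k + 2)) ^ (k + 2)
        - δ * ((k + 2) * U ^ (k + 1) * V) ^ (k + 2)
      = (U ^ (k + 2) - δ * V ^ (k + 2)) ^ 2 *
        S ((k + 1) * U ^ (k + 2) + δ * V ^ (k + 2)) ((k + 2) * U ^ (k + 2)) k := by
  have h := S_id ((k + 1) * U ^ (k + 2) + δ * V ^ (k + 2)) ((k + 2) * U ^ (k + 2)) k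
  have e : (U ^ (k + 2) - δ * V ^ (k + 2)) ^ 2 =
      ((k + 1) * U ^ (k + 2) + δ * V ^ (k + 2) - (k + 2) * U ^ (k + 2)) ^ 2 := by ring
  rw [e, h]
  have e2 : -(((k : ℤ) + 2) * ((k + 1) * U ^ (k + 2) + δ * V ^ (k + 2)) *
        (((k : ℤ) + 2) * U ^ (k + 2)) ^ (k + 1)) + (k + 1) * ((k + 2) * U ^ (k + 2)) ^ (k + 2)
      = - (δ * ((k + 2) * U ^ (k + 1) * V) ^ (k + 2)) := by
    generalize hc : (k : ℤ) + 2 = c
    have hk : (k : ℤ) + 1 = c - 1 := by linarith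
    rw [hk]
    simp only [mul_pow, ← pow_mul]
    have e3 : (k + 2) * (k + 1) = (k + 1) * (k + 2) := by ring
    have e4 : U ^ ((k + 2) * (k + 2)) = U ^ ((k + 1) * (k + 2)) * U ^ (k + 2) := by
      rw [← pow_add]; congr 1; ring
    rw [e3, e4, pow_succ c (k + 1)]
    ring
  linear_combination -e2

lemma gcd_dvd (k : ℕ) (δ m n s t g : ℤ) (hst : IsCoprime s t)
    (h1 : g ∣ (k + 1) * (m * s) ^ (k + 2) + δ * (n * t) ^ (k + 2))
    (h2 : g ∣ (k + 2) * (m * s) ^ (k + 1) * (n * t)) :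
    g ∣ (k + 2) * (k + 1) * δ * m ^ (2 * k + 3) * n ^ (k + 3) := by
  have h3 : g ∣ (k + 2) * (k + 1) * (m * s) ^ (2 * k + 3) := by
    have : (k + 2) * (k + 1) * (m * s) ^ (2 * k + 3)
        = (k + 2) * (m * s) ^ (k + 1) * ((k + 1) * (m * s) ^ (k + 2) + δ * (n * t) ^ (k + 2))
        - ((k + 2) * (m * s) ^ (k + 1) * (n * t)) * (δ * (n * t) ^ (k + 1)) := by ring
    rw [this]
    exact dvd_sub (Dvd.dvd.mul_left h1 _) (Dvd.dvd.mul_right h2 _)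
  have h4 : g ∣ (k + 2) * δ * (n * t) ^ (k + 3) := by
    have : (k + 2) * δ * (n * t) ^ (k + 3)
        = (k + 2) * (n * t) * ((k + 1) * (m * s) ^ (k + 2) + δ * (n * t) ^ (k + 2))
        - ((k + 2) * (m * s) ^ (k + 1) * (n * t)) * ((k + 1) * (m * s)) := by ring
    rw [this]
    exact dvd_sub (Dvd.dvd.mul_left h1 _) (Dvd.dvd.mul_right h2 _)
  obtain ⟨α, β, hαβ⟩ := (IsCoprime.pow (m := 2 * k + 3) (n := k + 3) hst)
  have : (k + 2) * (k + 1) * δ * m ^ (2 * k + 3) * n ^ (k + 3)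
      = ((k + 2) * (k + 1) * (m * s) ^ (2 * k + 3)) * (α * δ * n ^ (k + 3))
        + ((k + 2) * δ * (n * t) ^ (k + 3)) * (β * (k + 1) * m ^ (2 * k + 3)) := by
    have h5 : (k + 2) * (k + 1) * δ * m ^ (2 * k + 3) * n ^ (k + 3)
        = (k + 2) * (k + 1) * δ * m ^ (2 * k + 3) * n ^ (k + 3)
          * (α * s ^ (2 * k + 3) + β * t ^ (k + 3)) := by
      rw [hαβ, mul_one]
    rw [h5, mul_pow, mul_pow]
    ring
  rw [this]
  exact dvd_add (Dvd.dvd.mul_right h3 _) (Dvd.dvd.mul_right h4 _)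

lemma size_bound (k : ℕ) (δ U V : ℝ) (hδ : 1 ≤ |δ|) (hU : U ≠ 0) :
    (max |U| |V|) ^ (k + 2) ≤ (2 * k + 4 + |δ|) *
      max |(k + 1) * U ^ (k + 2) + δ * V ^ (k + 2)| |(k + 2) * U ^ (k + 1) * V| := by
  set T := (k + 1) * U ^ (k + 2) + δ * V ^ (k + 2) with hT
  set W := (k + 2) * U ^ (k + 1) * V with hW
  set N := max |T| |W| with hN
  set M := max |U| |V| with hM
  have hA : |T| ≤ N := le_max_left _ _
  have hB : |W| ≤ N := le_max_right _ _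
  have hU' : |U| ≤ M := le_max_left _ _
  have hV' : |V| ≤ M := le_max_right _ _
  have hN0 : 0 ≤ N := (abs_nonneg _).trans hA
  have hMpos : 0 < M := lt_of_lt_of_le (abs_pos.mpr hU) hU'
  have hδ0 : 0 ≤ |δ| := abs_nonneg _
  have hk : (0 : ℝ) ≤ k := by positivity
  rcases max_choice |U| |V| with h | h
  · rw [← hM] at h
    have e : (k + 2) * (k + 1) * |U| ^ (2 * k + 3)
        = |(k + 2) * U ^ (k + 1) * T - δ * V ^ (k + 1) * W| := by
      rw [show (k + 2) * U ^ (k + 1) * T - δ * V ^ (k + 1) * W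
          = ((k + 2) * (k + 1)) * U ^ (2 * k + 3) by rw [hT, hW]; ring, abs_mul, abs_pow,
        abs_of_pos (by positivity : (0 : ℝ) < (k + 2) * (k + 1))]
    have e2 : |(k + 2) * U ^ (k + 1) * T - δ * V ^ (k + 1) * W|
        ≤ (k + 2) * |U| ^ (k + 1) * |T| + |δ| * |V| ^ (k + 1) * |W| := by
      refine (abs_sub _ _).trans (le_of_eq ?_)
      rw [abs_mul, abs_mul, abs_mul, abs_mul, abs_pow, abs_pow,
        abs_of_pos (by positivity : (0 : ℝ) < (k : ℝ) + 2)]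
    have e3 : (k + 2) * |U| ^ (k + 1) * |T| ≤ (k + 2) * M ^ (k + 1) * N := by gcongr
    have e4 : |δ| * |V| ^ (k + 1) * |W| ≤ |δ| * M ^ (k + 1) * N := by gcongr
    have e5 : M ^ (2 * k + 3) ≤ (k + 2) * (k + 1) * |U| ^ (2 * k + 3) := by
      rw [← h]
      have : (1 : ℝ) ≤ (k + 2) * (k + 1) := by nlinarith
      exact le_mul_of_one_le_left (by positivity) this
    have e6 : M ^ (k + 2) * M ^ (k + 1) ≤ ((2 * k + 4 + |δ|) * N) * M ^ (k + 1) := by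
      have : M ^ (k + 2) * M ^ (k + 1) = M ^ (2 * k + 3) := by rw [← pow_add]; congr 1; ring
      rw [this]
      have e7 : M ^ (2 * k + 3) ≤ ((k + 2 + |δ|) * N) * M ^ (k + 1) := by
        calc M ^ (2 * k + 3) ≤ (k + 2) * M ^ (k + 1) * N + |δ| * M ^ (k + 1) * N := by linarith
          _ = _ := by ring
      refine e7.trans ?_
      apply mul_le_mul_of_nonneg_right _ (by positivity)
      apply mul_le_mul_of_nonneg_right _ hN0
      linarith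
    exact le_of_mul_le_mul_right e6 (by positivity)
  · rw [← hM] at h
    have e : (k + 2) * |δ| * |V| ^ (k + 3) = |(k + 2) * V * T - (k + 1) * U * W| := by
      rw [show (k + 2) * V * T - (k + 1) * U * W = (k + 2) * (δ * V ^ (k + 3)) by
        rw [hT, hW]; ring, abs_mul, abs_mul, abs_pow,
        abs_of_pos (by positivity : (0 : ℝ) < (k : ℝ) + 2)]
      ring
    have e2 : |(k + 2) * V * T - (k + 1) * U * W| ≤ (k + 2) * |V| * |T| + (k + 1) * |U| * |W| := by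
      refine (abs_sub _ _).trans (le_of_eq ?_)
      rw [abs_mul, abs_mul, abs_mul, abs_mul, abs_of_pos (by positivity : (0 : ℝ) < (k : ℝ) + 2),
        abs_of_pos (by positivity : (0 : ℝ) < (k : ℝ) + 1)]
    have e3 : (k + 2) * |V| * |T| ≤ (k + 2) * M * N := by gcongr
    have e4 : (k + 1) * |U| * |W| ≤ (k + 1) * M * N := by gcongr
    have e5 : M ^ (k + 3) ≤ (k + 2) * |δ| * |V| ^ (k + 3) := by
      rw [← h]
      have : (1 : ℝ) ≤ (k + 2) * |δ| := by nlinarith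
      exact le_mul_of_one_le_left (by positivity) this
    have e6 : M ^ (k + 2) * M ≤ ((2 * k + 4 + |δ|) * N) * M := by
      have : M ^ (k + 2) * M = M ^ (k + 3) := by ring
      rw [this]
      have e7 : M ^ (k + 3) ≤ ((2 * k + 3) * N) * M := by
        calc M ^ (k + 3) ≤ (k + 2) * M * N + (k + 1) * M * N := by linarith
          _ = _ := by ring
      refine e7.trans ?_
      apply mul_le_mul_of_nonneg_right _ hMpos.le
      apply mul_le_mul_of_nonneg_right _ hN0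
      linarith
    exact le_of_mul_le_mul_right e6 hMpos

lemma dvd_aux (k : ℕ) (c m n s t : ℤ) :
    c * (m * s) ^ (k + 1) * (n * t) ∣ (c * m * n * (s * t)) ^ (k + 2) :=
  ⟨c ^ (k + 1) * (m * s) * (n * t) ^ (k + 1), by ring⟩

lemma core (k : ℕ) (δ : ℤ) (hδ : δ ≠ 0) (hT : Tn (k + 2) δ) (P : ℕ) (m n : ℤ)
    (hm : m ≠ 0) (hn : n ≠ 0) (c₂ c₄ : ℝ) (hc₂ : 0 < c₂) (hc₄ : 0 < c₄) (ε : ℝ) (hε : 0 < ε)
    (hε1 : ε < 1) :
    ∃ κ : ℝ, 0 < κ ∧ ∀ (s t : ℤ) (y : ℝ), 1 ≤ y → IsCoprime s t → s ≠ 0 → t ≠ 0 →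
      (Even k ∨ 0 < δ * (m * s) ^ (k + 2) * (n * t) ^ (k + 2)) →
      (m * s) ^ (k + 2) - δ * (n * t) ^ (k + 2) ≠ 0 →
      (rad ((m * s) ^ (k + 2) - δ * (n * t) ^ (k + 2)) : ℝ) ≤ c₂ * (y ^ (k + 2)) ^ P →
      c₄ * y ^ (P + 1) ≤ max |((m * s : ℤ) : ℝ)| |((n * t : ℤ) : ℝ)| →
      y ^ (((k + 2 : ℕ) : ℝ) - ε) ≤ κ * rad (s * t) := by
  have hk0 : (0 : ℝ) ≤ k := by positivity
  set ε₁ : ℝ := ε / ((k + 2) * (P + 1)) with hε₁
  have hP0 : (0 : ℝ) ≤ P := by positivity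
  have hD1 : (1 : ℝ) < (k + 2) * (P + 1) := by nlinarith
  have hε₁0 : 0 < ε₁ := by positivity
  have hε₁1 : ε₁ < 1 := by
    rw [hε₁, div_lt_one (by positivity)]
    linarith
  obtain ⟨κ₁, hκ₁, H⟩ := hT ε₁ hε₁0 hε₁1
  set G : ℝ := |(((k + 2) * (k + 1) * δ * m ^ (2 * k + 3) * n ^ (k + 3) : ℤ) : ℝ)| with hG
  have hGne : ((k + 2) * (k + 1) * δ * m ^ (2 * k + 3) * n ^ (k + 3) : ℤ) ≠ 0 := by positivity
  have hG0 : 0 < G := by
    rw [hG]; exact abs_pos.mpr (by exact_mod_cast hGne)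
  have hδ1 : (1 : ℝ) ≤ |(δ : ℝ)| := by exact_mod_cast Int.one_le_abs hδ
  set c : ℝ := 1 / ((2 * k + 4 + |(δ : ℝ)|) * G) with hc
  have hc0 : 0 < c := by positivity
  set K : ℝ := |(((k + 2) * m * n : ℤ) : ℝ)| with hK
  have hKne : ((k + 2) * m * n : ℤ) ≠ 0 := by positivity
  have hK0 : 0 < K := by
    rw [hK]; exact abs_pos.mpr (by exact_mod_cast hKne)
  set L : ℝ := Kc k * (k + 2 + |(δ : ℝ)|) ^ k with hL
  have hL0 : 0 < L := by
    have : (0 : ℝ) < Kc k := by exact_mod_cast Kc_pos k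
    positivity
  set e₁ : ℝ := ((k + 2 : ℕ) : ℝ) - 1 - ε₁ with he₁
  have he₁0 : 0 < e₁ := by rw [he₁]; push_cast; linarith
  refine ⟨κ₁ * K * c₂ * L / (c ^ e₁ * (c₄ ^ (k + 2)) ^ (1 - ε₁)), by positivity, ?_⟩
  intro s t y hy hst hs ht hsign hW hrad hsize
  have hy0 : 0 < y := by linarith
  set U : ℤ := m * s with hU
  set V : ℤ := n * t with hV
  have hU0 : U ≠ 0 := mul_ne_zero hm hs
  have hV0 : V ≠ 0 := mul_ne_zero hn ht
  set X : ℤ := (k + 1) * U ^ (k + 2) + δ * V ^ (k + 2) with hX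
  set Y : ℤ := (k + 2) * U ^ (k + 1) * V with hY
  have hY0 : Y ≠ 0 := by rw [hY]; positivity
  set sg : ℤ := S X ((k + 2) * U ^ (k + 2)) k with hsg
  have hid0 : X ^ (k + 2) - δ * Y ^ (k + 2) = (U ^ (k + 2) - δ * V ^ (k + 2)) ^ 2 * sg :=
    id_step k δ U V
  have hsg0 : sg ≠ 0 := by
    rcases hsign with he | hs'
    · obtain ⟨i, hi⟩ := he
      have : k = 2 * i := by omega
      rw [hsg, this]
      have := S_even_pos X ((((2 * i : ℕ) : ℤ) + 2) * U ^ (2 * i + 2)) (by positivity) i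
      exact this.ne'
    · by_cases hUp : 0 < U ^ (k + 2)
      · have h1 : 0 < δ * V ^ (k + 2) := by
          have : δ * U ^ (k + 2) * V ^ (k + 2) = (δ * V ^ (k + 2)) * U ^ (k + 2) := by ring
          rw [this] at hs'
          exact pos_of_mul_pos_left hs' hUp.le
        exact (S_pos _ _ (by positivity) (by positivity) k).ne'
      · have hUn : U ^ (k + 2) < 0 :=
          lt_of_le_of_ne (not_lt.mp hUp) (pow_ne_zero _ hU0)
        have h1 : δ * V ^ (k + 2) < 0 := by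
          have : δ * U ^ (k + 2) * V ^ (k + 2) = (δ * V ^ (k + 2)) * U ^ (k + 2) := by ring
          rw [this] at hs'
          exact neg_of_mul_pos_left hs' hUn.le
        have hk1 : (0 : ℤ) < (k : ℤ) + 1 := by positivity
        have hk2 : (0 : ℤ) < (k : ℤ) + 2 := by positivity
        exact S_ne_neg _ _ (by rw [hX]; nlinarith) (by nlinarith) k
  obtain ⟨g, x₁, y₁, hg, hx₁, hy₁, hcop⟩ := exists_reduce X Y (fun h => hY0 h.2)
  have hid : g ^ (k + 2) * (x₁ ^ (k + 2) - δ * y₁ ^ (k + 2))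
      = (U ^ (k + 2) - δ * V ^ (k + 2)) ^ 2 * sg := by
    rw [← hid0, hx₁, hy₁]; ring
  have hy₁0 : y₁ ≠ 0 := by
    rintro rfl
    apply hY0; rw [hy₁, mul_zero]
  have hW₁ : x₁ ^ (k + 2) - δ * y₁ ^ (k + 2) ≠ 0 := by
    intro h0
    rw [h0, mul_zero] at hid
    exact (mul_ne_zero (pow_ne_zero 2 hW) hsg0) hid.symm
  have hH := H x₁ y₁ hcop hy₁0 hW₁
  -- sizes
  have hUR : (U : ℝ) ≠ 0 := by exact_mod_cast hU0
  set M : ℝ := max |(U : ℝ)| |(V : ℝ)| with hM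
  have hM0 : 0 < M := lt_of_lt_of_le (abs_pos.mpr hUR) (le_max_left _ _)
  have hsgle : |(sg : ℝ)| ≤ L * (M ^ (k + 2)) ^ k := by
    have hUM : |(U : ℝ)| ^ (k + 2) ≤ M ^ (k + 2) :=
      pow_le_pow_left₀ (abs_nonneg _) (le_max_left _ _) _
    have hVM : |(V : ℝ)| ^ (k + 2) ≤ M ^ (k + 2) :=
      pow_le_pow_left₀ (abs_nonneg _) (le_max_right _ _) _
    have h1 : |(X : ℝ)| ≤ (k + 2 + |(δ : ℝ)|) * M ^ (k + 2) := by
      rw [hX]; push_cast
      refine (abs_add_le _ _).trans ?_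
      rw [abs_mul, abs_mul, abs_pow, abs_pow, abs_of_pos (by positivity : (0 : ℝ) < (k : ℝ) + 1)]
      have h2 : ((k : ℝ) + 1) * |(U : ℝ)| ^ (k + 2) ≤ (k + 1) * M ^ (k + 2) := by gcongr
      have h3 : |(δ : ℝ)| * |(V : ℝ)| ^ (k + 2) ≤ |(δ : ℝ)| * M ^ (k + 2) := by gcongr
      have h4 : 0 ≤ M ^ (k + 2) := by positivity
      nlinarith
    have h2 : |((((k : ℤ) + 2) * U ^ (k + 2) : ℤ) : ℝ)| ≤ (k + 2 + |(δ : ℝ)|) * M ^ (k + 2) := by
      push_cast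
      rw [abs_mul, abs_pow, abs_of_pos (by positivity : (0 : ℝ) < (k : ℝ) + 2)]
      have h2 : ((k : ℝ) + 2) * |(U : ℝ)| ^ (k + 2) ≤ (k + 2) * M ^ (k + 2) := by gcongr
      have h3 : 0 ≤ |(δ : ℝ)| * M ^ (k + 2) := by positivity
      linarith
    have h3 := S_le_real X (((k : ℤ) + 2) * U ^ (k + 2)) _ h1 h2 k
    refine h3.trans (le_of_eq ?_)
    rw [hL, mul_pow]; ring
  -- the radical
  have hradle : (rad (y₁ * (x₁ ^ (k + 2) - δ * y₁ ^ (k + 2))) : ℝ) ≤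
      K * rad (s * t) * (c₂ * (y ^ (k + 2)) ^ P) * (L * (M ^ (k + 2)) ^ k) := by
    have hst0 : s * t ≠ 0 := mul_ne_zero hs ht
    have hne : (((k + 2) * m * n) * (s * t)) * ((U ^ (k + 2) - δ * V ^ (k + 2)) * sg) ≠ 0 :=
      mul_ne_zero (mul_ne_zero hKne hst0) (mul_ne_zero hW hsg0)
    have h1 : rad (y₁ * (x₁ ^ (k + 2) - δ * y₁ ^ (k + 2))) ≤
        rad ((((k + 2) * m * n) * (s * t)) * ((U ^ (k + 2) - δ * V ^ (k + 2)) * sg)) := by
      apply rad_le_of_dvd_pow hne (k + 2)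
      have e1 : g ^ (k + 3) * (y₁ * (x₁ ^ (k + 2) - δ * y₁ ^ (k + 2)))
          = Y * ((U ^ (k + 2) - δ * V ^ (k + 2)) ^ 2 * sg) := by
        rw [← hid, hy₁]; ring
      refine dvd_trans (Dvd.intro_left (g ^ (k + 3)) rfl) ?_
      rw [e1, mul_pow (((k : ℤ) + 2) * m * n * (s * t)) _ (k + 2)]
      apply mul_dvd_mul
      · -- `Y ∣ ((k+2) m n s t)^(k+2)`
        rw [hY, hU, hV]
        exact dvd_aux k _ m n s t
      · rw [mul_pow (U ^ (k + 2) - δ * V ^ (k + 2)) sg]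
        apply mul_dvd_mul
        · exact pow_dvd_pow _ (by omega)
        · exact dvd_pow_self _ (by omega)
    have h1' : (rad (y₁ * (x₁ ^ (k + 2) - δ * y₁ ^ (k + 2))) : ℝ) ≤
        rad ((((k + 2) * m * n) * (s * t)) * ((U ^ (k + 2) - δ * V ^ (k + 2)) * sg)) := by
      exact_mod_cast h1
    refine h1'.trans ((rad_mul_le' _ _).trans ?_)
    have h2 : (rad (((k + 2) * m * n) * (s * t)) : ℝ) ≤ K * rad (s * t) := rad_mul_le_abs hKne
    have h3 : (rad ((U ^ (k + 2) - δ * V ^ (k + 2)) * sg) : ℝ)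
        ≤ (c₂ * (y ^ (k + 2)) ^ P) * (L * (M ^ (k + 2)) ^ k) := by
      refine (rad_mul_le' _ _).trans ?_
      exact mul_le_mul hrad ((rad_le_abs hsg0).trans hsgle) (by positivity) (by positivity)
    calc (rad (((k + 2) * m * n) * (s * t)) : ℝ)
          * rad ((U ^ (k + 2) - δ * V ^ (k + 2)) * sg)
        ≤ (K * rad (s * t)) * ((c₂ * (y ^ (k + 2)) ^ P) * (L * (M ^ (k + 2)) ^ k)) :=
          mul_le_mul h2 h3 (by positivity) (by positivity)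
      _ = _ := by ring
  have hgG : (g : ℝ) ≤ G := by
    have hdv : g ∣ (k + 2) * (k + 1) * δ * m ^ (2 * k + 3) * n ^ (k + 3) := by
      apply gcd_dvd k δ m n s t g hst
      · rw [← hU, ← hV, ← hX, hx₁]; exact Dvd.intro _ rfl
      · rw [← hU, ← hV, ← hY, hy₁]; exact Dvd.intro _ rfl
    have := Int.le_of_dvd (abs_pos.mpr hGne) ((dvd_abs _ _).mpr hdv)
    rw [hG]
    exact_mod_cast this
  have hg0 : (0 : ℝ) < g := by exact_mod_cast hg
  have hsz := size_bound k (δ : ℝ) (U : ℝ) (V : ℝ) hδ1 hUR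
  have hN : max |((k : ℝ) + 1) * (U : ℝ) ^ (k + 2) + δ * (V : ℝ) ^ (k + 2)|
      |((k : ℝ) + 2) * (U : ℝ) ^ (k + 1) * V| = g * max |(x₁ : ℝ)| |(y₁ : ℝ)| := by
    have e1 : ((k : ℝ) + 1) * (U : ℝ) ^ (k + 2) + δ * (V : ℝ) ^ (k + 2) = g * x₁ := by
      have := hx₁; rw [hX] at this; exact_mod_cast this
    have e2 : ((k : ℝ) + 2) * (U : ℝ) ^ (k + 1) * V = g * y₁ := by
      have := hy₁; rw [hY] at this; exact_mod_cast this
    rw [e1, e2, abs_mul, abs_mul, abs_of_pos hg0, mul_max_of_nonneg _ _ hg0.le]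
  rw [hN, ← hM] at hsz
  set H₁ : ℝ := max |(x₁ : ℝ)| |(y₁ : ℝ)| with hH₁
  have hH₁0 : 0 ≤ H₁ := (abs_nonneg _).trans (le_max_left _ _)
  have hcM : c * M ^ (k + 2) ≤ H₁ := by
    rw [hc, div_mul_eq_mul_div, div_le_iff₀ (by positivity), one_mul]
    calc M ^ (k + 2) ≤ (2 * k + 4 + |(δ : ℝ)|) * (g * H₁) := hsz
      _ ≤ (2 * k + 4 + |(δ : ℝ)|) * (G * H₁) := by gcongr
      _ = H₁ * ((2 * k + 4 + |(δ : ℝ)|) * G) := by ring
  have hMn : 0 < M ^ (k + 2) := by positivity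
  have hfin : (c * M ^ (k + 2)) ^ e₁ ≤
      κ₁ * (K * rad (s * t) * (c₂ * (y ^ (k + 2)) ^ P) * (L * (M ^ (k + 2)) ^ k)) :=
    calc (c * M ^ (k + 2)) ^ e₁ ≤ H₁ ^ e₁ :=
          Real.rpow_le_rpow (by positivity) hcM he₁0.le
      _ ≤ κ₁ * rad (y₁ * (x₁ ^ (k + 2) - δ * y₁ ^ (k + 2))) := hH
      _ ≤ _ := mul_le_mul_of_nonneg_left hradle hκ₁.le
  have hL1 : (c * M ^ (k + 2)) ^ e₁ = (c ^ e₁ * (M ^ (k + 2)) ^ (1 - ε₁)) * (M ^ (k + 2)) ^ k := by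
    rw [Real.mul_rpow hc0.le hMn.le, mul_assoc]
    congr 1
    rw [← Real.rpow_natCast (M ^ (k + 2)) k, ← Real.rpow_add hMn]
    congr 1
    rw [he₁]; push_cast; ring
  rw [hL1] at hfin
  have hfin2 : c ^ e₁ * (M ^ (k + 2)) ^ (1 - ε₁) ≤
      κ₁ * K * c₂ * L * rad (s * t) * (y ^ (k + 2)) ^ P := by
    refine le_of_mul_le_mul_right ?_ (by positivity : 0 < (M ^ (k + 2)) ^ k)
    refine hfin.trans (le_of_eq ?_)
    ring
  have hMy : (c₄ ^ (k + 2)) ^ (1 - ε₁) * (y ^ (((k + 2 : ℕ) : ℝ) - ε) * (y ^ (k + 2)) ^ P)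
      ≤ (M ^ (k + 2)) ^ (1 - ε₁) := by
    have h1 : c₄ ^ (k + 2) * (y ^ (P + 1)) ^ (k + 2) ≤ M ^ (k + 2) := by
      rw [← mul_pow]
      exact pow_le_pow_left₀ (by positivity) hsize _
    have h2 : (c₄ ^ (k + 2) * (y ^ (P + 1)) ^ (k + 2)) ^ (1 - ε₁) ≤ (M ^ (k + 2)) ^ (1 - ε₁) :=
      Real.rpow_le_rpow (by positivity) h1 (by linarith)
    refine le_trans (le_of_eq ?_) h2
    rw [Real.mul_rpow (by positivity) (by positivity)]
    congr 1
    rw [← pow_mul, ← pow_mul, ← Real.rpow_natCast y ((k + 2) * P),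
      ← Real.rpow_natCast y ((P + 1) * (k + 2)), ← Real.rpow_mul hy0.le, ← Real.rpow_add hy0]
    congr 1
    rw [hε₁]
    push_cast
    field_simp
    ring
  have hyp : 0 < (y ^ (k + 2)) ^ P := by positivity
  have hcp : 0 < c ^ e₁ * (c₄ ^ (k + 2)) ^ (1 - ε₁) := by positivity
  rw [div_mul_eq_mul_div, le_div_iff₀ hcp]
  refine le_of_mul_le_mul_right ?_ hyp
  calc y ^ (((k + 2 : ℕ) : ℝ) - ε) * (c ^ e₁ * (c₄ ^ (k + 2)) ^ (1 - ε₁)) * (y ^ (k + 2)) ^ P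
      = c ^ e₁ * ((c₄ ^ (k + 2)) ^ (1 - ε₁) * (y ^ (((k + 2 : ℕ) : ℝ) - ε) * (y ^ (k + 2)) ^ P)) := by
        ring
    _ ≤ c ^ e₁ * (M ^ (k + 2)) ^ (1 - ε₁) := mul_le_mul_of_nonneg_left hMy (by positivity)
    _ ≤ κ₁ * K * c₂ * L * rad (s * t) * (y ^ (k + 2)) ^ P := hfin2

end Pool.Agent.Q245.Vj
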