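import Pool.Agent.Q245.Vj.Cases

set_option autoImplicit false
set_option maxHeartbeats 1000000

namespace Pool.Agent.Q245.Vj

/-- from the form `y G(x, y)` to `v (tⁿ - δ vⁿ)` -/
lemma Tn_of_form (k : ℕ) (G : ℤ → ℤ → ℤ) (e p q δ : ℤ) (he : e ≠ 0) (hp : p ≠ 0)
    (hG : ∀ x y, e * G x y = (p * x + q * y) ^ (k + 2) - δ * y ^ (k + 2))
    (h : Truncated (k + 3) (fun x y => y * G x y)) : Tn (k + 2) δ := by
  intro ε hε hε1
  obtain ⟨κ, H⟩ := h ε hε
  set C : ℝ := (1 + |(q : ℝ)|) * |(p : ℝ)| with hC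
  have hpR : (1 : ℝ) ≤ |(p : ℝ)| := by exact_mod_cast Int.one_le_abs hp
  have hC0 : 0 < C := by positivity
  set E : ℝ := ((k + 2 : ℕ) : ℝ) - 1 - ε with hE
  have he0 : 0 < E := by
    rw [hE]; push_cast
    have : (0 : ℝ) ≤ k := by positivity
    linarith
  refine ⟨C ^ E * (|κ| + 1) * |(p : ℝ)|, by positivity, ?_⟩
  intro t v htv hv hW
  obtain ⟨g, x, y, hg, hx, hy, hcop⟩ := exists_reduce (t - q * v) (p * v)
    (fun h => (mul_ne_zero hp hv) h.2)
  have hF : e * g ^ (k + 3) * (y * G x y)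
      = p ^ (k + 3) * (v * (t ^ (k + 2) - δ * v ^ (k + 2))) := by
    have h1 : e * g ^ (k + 3) * (y * G x y) = (g * y) * (g ^ (k + 2) * (e * G x y)) := by ring
    have h2 : g ^ (k + 2) * (e * G x y)
        = (p * (g * x) + q * (g * y)) ^ (k + 2) - δ * (g * y) ^ (k + 2) := by
      rw [hG]
      have : p * (g * x) + q * (g * y) = g * (p * x + q * y) := by ring
      rw [this, mul_pow, mul_pow]; ring
    rw [h1, h2, ← hx, ← hy]
    have h3 : p * (t - q * v) + q * (p * v) = p * t := by ring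
    rw [h3]; ring
  have hZ0 : v * (t ^ (k + 2) - δ * v ^ (k + 2)) ≠ 0 := mul_ne_zero hv hW
  have hFne : p ^ (k + 3) * (v * (t ^ (k + 2) - δ * v ^ (k + 2))) ≠ 0 :=
    mul_ne_zero (pow_ne_zero _ hp) hZ0
  have hF0 : y * G x y ≠ 0 := by
    intro h0
    rw [h0, mul_zero] at hF
    exact hFne hF.symm
  have h1 := H x y hcop hF0
  have hexp : ((k + 3 : ℕ) : ℝ) - 2 - ε = E := by rw [hE]; push_cast; ring
  rw [hexp] at h1
  have hr : (rad (y * G x y) : ℝ)
      ≤ |(p : ℝ)| * rad (v * (t ^ (k + 2) - δ * v ^ (k + 2))) := by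
    have h2 : rad (y * G x y) ≤ rad (p * (v * (t ^ (k + 2) - δ * v ^ (k + 2)))) := by
      apply rad_le_of_dvd_pow (mul_ne_zero hp hZ0) (k + 3)
      refine dvd_trans (Dvd.intro_left (e * g ^ (k + 3)) rfl) ?_
      rw [hF, mul_pow]
      exact mul_dvd_mul_left _ (dvd_pow_self _ (by omega))
    exact le_trans (by exact_mod_cast h2) (rad_mul_le_abs hp)
  -- comparison of heights
  set H₁ : ℝ := max |(x : ℝ)| |(y : ℝ)| with hH₁
  have hH1 : 1 ≤ H₁ := one_le_H hcop
  have hgle : (g : ℝ) ≤ |(p : ℝ)| := by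
    have hgd : g ∣ p := by
      have h5 : IsCoprime (t - q * v) v := by
        have := htv.add_mul_left_left (-q)
        have e : t + v * -q = t - q * v := by ring
        rwa [e] at this
      have h6 : g ∣ t - q * v := ⟨x, hx⟩
      have h7 : g ∣ p * v := ⟨y, hy⟩
      exact (IsCoprime.of_isCoprime_of_dvd_left h5 h6).dvd_of_dvd_mul_right h7
    have := Int.le_of_dvd (abs_pos.mpr hp) ((dvd_abs _ _).mpr hgd)
    exact_mod_cast this
  have hg0 : (0 : ℝ) < g := by exact_mod_cast hg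
  have hv1 : |(v : ℝ)| ≤ g * H₁ := by
    have e : (p : ℝ) * v = g * y := by exact_mod_cast hy
    have e2 : |(p : ℝ)| * |(v : ℝ)| = g * |(y : ℝ)| := by
      have := congrArg abs e
      rwa [abs_mul, abs_mul, abs_of_pos hg0] at this
    have e3 : g * |(y : ℝ)| ≤ g * H₁ := mul_le_mul_of_nonneg_left (le_max_right _ _) hg0.le
    nlinarith [abs_nonneg (v : ℝ)]
  have ht1 : |(t : ℝ)| ≤ (1 + |(q : ℝ)|) * (g * H₁) := by
    have e : (t : ℝ) = g * x + q * v := by
      have : t = g * x + q * v := by linarith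
      exact_mod_cast this
    calc |(t : ℝ)| = |(g : ℝ) * x + q * v| := by rw [e]
      _ ≤ |(g : ℝ) * x| + |(q : ℝ) * v| := abs_add_le _ _
      _ = g * |(x : ℝ)| + |(q : ℝ)| * |(v : ℝ)| := by
          rw [abs_mul, abs_mul, abs_of_pos hg0]
      _ ≤ g * H₁ + |(q : ℝ)| * (g * H₁) := by
          gcongr
          exact le_max_left _ _
      _ = (1 + |(q : ℝ)|) * (g * H₁) := by ring
  have hHt : max |(t : ℝ)| |(v : ℝ)| ≤ C * H₁ := by
    have h9 : (1 + |(q : ℝ)|) * (g * H₁) ≤ C * H₁ := by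
      rw [hC]
      have : (1 + |(q : ℝ)|) * (g * H₁) ≤ (1 + |(q : ℝ)|) * (|(p : ℝ)| * H₁) := by gcongr
      linarith
    refine max_le (ht1.trans h9) (hv1.trans ?_)
    refine le_trans ?_ h9
    refine le_mul_of_one_le_left (by positivity) ?_
    linarith [abs_nonneg (q : ℝ)]
  calc (max |(t : ℝ)| |(v : ℝ)|) ^ E ≤ (C * H₁) ^ E :=
        Real.rpow_le_rpow (by positivity) hHt he0.le
    _ = C ^ E * H₁ ^ E := Real.mul_rpow hC0.le (by positivity)
    _ ≤ C ^ E * (κ * rad (y * G x y)) := by gcongr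
    _ ≤ C ^ E * ((|κ| + 1) * (|(p : ℝ)| * rad (v * (t ^ (k + 2) - δ * v ^ (k + 2))))) := by
        gcongr
        linarith [le_abs_self κ]
    _ = _ := by ring

/-- the symmetric form of the `abc` conjecture -/
lemma abc_sym (h : ABC) (ε : ℝ) (hε : 0 < ε) : ∃ κ : ℝ, 0 < κ ∧ ∀ A B : ℤ, IsCoprime A B →
    A ≠ 0 → B ≠ 0 → A + B ≠ 0 →
    |(A : ℝ)| ≤ κ * (rad (A * B * (A + B)) : ℝ) ^ (1 + ε) ∧
    |(B : ℝ)| ≤ κ * (rad (A * B * (A + B)) : ℝ) ^ (1 + ε) := by
  obtain ⟨κ, H⟩ := h ε hε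
  refine ⟨|κ| + 1, by positivity, ?_⟩
  -- the case `A > 0`
  have key : ∀ A B : ℤ, IsCoprime A B → 0 < A → B ≠ 0 → A + B ≠ 0 →
      |(A : ℝ)| ≤ (|κ| + 1) * (rad (A * B * (A + B)) : ℝ) ^ (1 + ε) ∧
      |(B : ℝ)| ≤ (|κ| + 1) * (rad (A * B * (A + B)) : ℝ) ^ (1 + ε) := by
    intro A B hAB hA hB hC
    have fin : ∀ (a b : ℤ), 0 < a → 0 < b → IsCoprime a b →
        rad (a * b * (a + b)) = rad (A * B * (A + B)) → |A| ≤ a + b → |B| ≤ a + b →
        |(A : ℝ)| ≤ (|κ| + 1) * (rad (A * B * (A + B)) : ℝ) ^ (1 + ε) ∧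
        |(B : ℝ)| ≤ (|κ| + 1) * (rad (A * B * (A + B)) : ℝ) ^ (1 + ε) := by
      intro a b ha hb hab hrad h1 h2
      have h3 := H a b ha hb hab
      rw [hrad] at h3
      have h4 : κ * (rad (A * B * (A + B)) : ℝ) ^ (1 + ε)
          ≤ (|κ| + 1) * (rad (A * B * (A + B)) : ℝ) ^ (1 + ε) := by
        gcongr
        linarith [le_abs_self κ]
      constructor
      · refine le_trans ?_ (h3.trans h4)
        exact_mod_cast h1
      · refine le_trans ?_ (h3.trans h4)
        exact_mod_cast h2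
    rcases lt_or_gt_of_ne hB with hBn | hBp
    · rcases lt_or_gt_of_ne hC with hCn | hCp
      · -- `A + (-(A+B)) = -B`
        apply fin A (-(A + B)) hA (by linarith)
        · have := (hAB.add_mul_left_right 1).neg_right
          rwa [mul_one, add_comm B A] at this
        · rw [show A * -(A + B) * (A + -(A + B)) = A * B * (A + B) by ring]
        · rw [abs_of_pos hA]; linarith
        · rw [abs_of_neg hBn]; linarith
      · apply fin (A + B) (-B) hCp (by linarith)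
        · have := (hAB.add_mul_left_left 1).neg_right
          rwa [mul_one] at this
        · rw [show (A + B) * -B * (A + B + -B) = -(A * B * (A + B)) by ring, rad_neg]
        · rw [abs_of_pos hA]; linarith
        · rw [abs_of_neg hBn]; linarith
    · apply fin A B hA hBp hAB rfl
      · rw [abs_of_pos hA]; linarith
      · rw [abs_of_pos hBp]; linarith
  intro A B hAB hA hB hC
  rcases lt_or_gt_of_ne hA with hAn | hAp
  · have := key (-A) (-B) hAB.neg_neg (by linarith) (neg_ne_zero.mpr hB)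
      (by intro h0; apply hC; linarith)
    rw [show -A * -B * (-A + -B) = -(A * B * (A + B)) by ring, rad_neg] at this
    push_cast at this
    rwa [abs_neg, abs_neg] at this
  · exact key A B hAB hAp hB hC

lemma g_dvd (k : ℕ) (p q δ x y g : ℤ) (hxy : IsCoprime x y)
    (d1 : g ∣ (p * x + q * y) ^ (k + 2)) (d2 : g ∣ δ * y ^ (k + 2)) :
    g ∣ δ * p ^ (k + 2) := by
  set X : ℤ := p * x + q * y with hX
  obtain ⟨a, b, hab⟩ := hxy
  have e1 : a * X + (p * b - a * q) * y = p := by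
    rw [hX]
    have : a * (p * x + q * y) + (p * b - a * q) * y = p * (a * x + b * y) := by ring
    rw [this, hab, mul_one]
  have hgg : (Int.gcd X y : ℤ) ∣ p := by
    rw [← e1]
    exact dvd_add (Dvd.dvd.mul_left (Int.gcd_dvd_left _ _) _)
      (Dvd.dvd.mul_left (Int.gcd_dvd_right _ _) _)
  have hg2 : (Int.gcd (X ^ (k + 2)) (y ^ (k + 2)) : ℤ) ∣ p ^ (k + 2) := by
    have e2 : Int.gcd (X ^ (k + 2)) (y ^ (k + 2)) = Int.gcd X y ^ (k + 2) := by
      rw [Int.gcd_eq_natAbs, Int.gcd_eq_natAbs, Int.natAbs_pow, Int.natAbs_pow,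
        Nat.pow_gcd_pow]
    rw [e2]
    push_cast
    exact pow_dvd_pow_of_dvd hgg (k + 2)
  have hd4 : g ∣ δ * (Int.gcd (X ^ (k + 2)) (y ^ (k + 2)) : ℤ) := by
    rw [Int.gcd_eq_gcd_ab, mul_add]
    refine dvd_add ?_ ?_
    · have : δ * (X ^ (k + 2) * (X ^ (k + 2)).gcdA (y ^ (k + 2)))
          = X ^ (k + 2) * (δ * (X ^ (k + 2)).gcdA (y ^ (k + 2))) := by ring
      rw [this]; exact Dvd.dvd.mul_right d1 _
    · have : δ * (y ^ (k + 2) * (X ^ (k + 2)).gcdB (y ^ (k + 2)))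
          = δ * y ^ (k + 2) * (X ^ (k + 2)).gcdB (y ^ (k + 2)) := by ring
      rw [this]; exact Dvd.dvd.mul_right d2 _
  exact hd4.trans (mul_dvd_mul_left δ hg2)

/-- the truncated inequality for the form `y G(x, y)` from the `abc` conjecture -/
lemma form_of_abc (k : ℕ) (G : ℤ → ℤ → ℤ) (e p q δ : ℤ) (he : e ≠ 0) (hp : p ≠ 0) (hδ : δ ≠ 0)
    (hG : ∀ x y, e * G x y = (p * x + q * y) ^ (k + 2) - δ * y ^ (k + 2)) (h : ABC) :
    Truncated (k + 3) (fun x y => y * G x y) := by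
  intro ε' hε'
  set N : ℝ := (k : ℝ) + 2 with hNdef
  have hk0 : (0 : ℝ) ≤ k := by positivity
  have hexp : ((k + 3 : ℕ) : ℝ) - 2 - ε' = N - 1 - ε' := by rw [hNdef]; push_cast; ring
  simp only [hexp]
  by_cases hbig : N - 1 ≤ ε'
  · refine ⟨1, ?_⟩
    intro x y hxy hF
    have h1 : (max |(x : ℝ)| |(y : ℝ)|) ^ (N - 1 - ε') ≤ 1 :=
      Real.rpow_le_one_of_one_le_of_nonpos (one_le_H hxy) (by linarith)
    linarith [one_le_rad (y * G x y)]
  push Not at hbig
  set ε : ℝ := ε' / (N - ε') with hεdef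
  have h2ε : 0 < N - ε' := by linarith
  have hε : 0 < ε := by positivity
  have hεe : (N - 1 - ε) = (N - 1 - ε') * (1 + ε) := by rw [hεdef]; field_simp; ring
  obtain ⟨κ, hκ, H⟩ := abc_sym h ε hε
  have hpR : 1 ≤ |(p : ℝ)| := by exact_mod_cast Int.one_le_abs hp
  have hdR : 1 ≤ |(δ : ℝ)| := by exact_mod_cast Int.one_le_abs hδ
  have heR : 1 ≤ |(e : ℝ)| := by exact_mod_cast Int.one_le_abs he
  have hqR : 0 ≤ |(q : ℝ)| := abs_nonneg _
  -- the constant
  set Γ : ℝ := |(δ : ℝ)| * |(p : ℝ)| ^ (k + 2) with hΓ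
  set L : ℝ := |(e : ℝ)| * |(δ : ℝ)| with hL
  have hΓ0 : 0 < Γ := by positivity
  have hL0 : 0 < L := by positivity
  set κ₁ : ℝ := (Γ * κ * L ^ (1 + ε)) ^ (1 / (1 + ε)) with hκ₁
  have hκ₁0 : 0 < κ₁ := by positivity
  set C₁ : ℝ := ((1 + |(q : ℝ)|) * |(p : ℝ)|) ^ (N - 1 - ε') with hC₁
  set C₂ : ℝ := (1 + |(q : ℝ)|) ^ (N - 1 - ε') with hC₂
  have hC₁0 : 0 < C₁ := by positivity
  have hC₂0 : 0 < C₂ := by positivity
  refine ⟨C₂ * κ₁ + C₁, ?_⟩
  intro x y hxy hF
  have hy : y ≠ 0 := by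
    rintro rfl
    exact hF (by simp)
  have hQ : G x y ≠ 0 := by
    intro h0
    exact hF (by simp [h0])
  set X : ℤ := p * x + q * y with hX
  set M : ℝ := max |(X : ℝ)| |(y : ℝ)| with hM
  have hyM : |(y : ℝ)| ≤ M := le_max_right _ _
  have hy1 : 1 ≤ |(y : ℝ)| := by exact_mod_cast Int.one_le_abs hy
  have hM1 : 1 ≤ M := hy1.trans hyM
  have hxM : |(x : ℝ)| ≤ (1 + |(q : ℝ)|) * M := by
    have e : (p : ℝ) * x = X - q * y := by rw [hX]; push_cast; ring
    have e1 : |(p : ℝ)| * |(x : ℝ)| ≤ |(X : ℝ)| + |(q : ℝ)| * |(y : ℝ)| := by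
      rw [← abs_mul, e]
      refine (abs_sub _ _).trans (le_of_eq ?_)
      rw [abs_mul]
    have e3 : |(q : ℝ)| * |(y : ℝ)| ≤ |(q : ℝ)| * M := by gcongr
    have e4 : |(X : ℝ)| ≤ M := le_max_left _ _
    nlinarith [abs_nonneg (x : ℝ)]
  have hHM : max |(x : ℝ)| |(y : ℝ)| ≤ (1 + |(q : ℝ)|) * M := by
    refine max_le hxM ?_
    nlinarith
  have hrad1 := one_le_rad (y * G x y)
  have hH0 : 0 ≤ max |(x : ℝ)| |(y : ℝ)| := by positivity
  have hE0 : 0 ≤ N - 1 - ε' := by linarith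
  by_cases hX0 : X = 0
  · -- bounded height
    have hyd : y ∣ p := by
      have h1 : y ∣ p * x := by
        have : p * x = X - q * y := by rw [hX]; ring
        rw [this, hX0, zero_sub]
        exact (Dvd.intro_left _ rfl).neg_right
      exact hxy.symm.dvd_of_dvd_mul_right h1
    have hyle : |(y : ℝ)| ≤ |(p : ℝ)| := by
      have := Int.le_of_dvd (abs_pos.mpr hp) (by rw [abs_dvd, dvd_abs]; exact hyd : |y| ∣ |p|)
      exact_mod_cast this
    have hMle : M ≤ |(p : ℝ)| := by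
      rw [hM, hX0]
      simp only [Int.cast_zero, abs_zero]
      exact max_le (by positivity) hyle
    calc (max |(x : ℝ)| |(y : ℝ)|) ^ (N - 1 - ε') ≤ C₁ := by
          apply Real.rpow_le_rpow hH0 _ hE0
          refine hHM.trans ?_
          gcongr
      _ ≤ C₂ * κ₁ + C₁ := by
          have : 0 < C₂ * κ₁ := by positivity
          linarith
      _ ≤ _ := le_mul_of_one_le_right (by positivity) hrad1
  · -- the main case
    have hdy : δ * y ^ (k + 2) ≠ 0 := mul_ne_zero hδ (pow_ne_zero _ hy)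
    have hsum : X ^ (k + 2) + -(δ * y ^ (k + 2)) = e * G x y := by
      rw [hG]; ring
    have hsum0 : e * G x y ≠ 0 := mul_ne_zero he hQ
    obtain ⟨g, A, B, hg, hA, hB, hcop⟩ := exists_reduce (X ^ (k + 2)) (-(δ * y ^ (k + 2)))
      (fun h => (pow_ne_zero _ hX0) h.1)
    have hA0 : A ≠ 0 := by
      rintro rfl
      exact (pow_ne_zero (k + 2) hX0) (by rw [hA, mul_zero])
    have hB0 : B ≠ 0 := by
      rintro rfl
      exact (neg_ne_zero.mpr hdy) (by rw [hB, mul_zero])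
    have hAB : g * (A + B) = e * G x y := by
      rw [mul_add, ← hA, ← hB, hsum]
    have hAB0 : A + B ≠ 0 := by
      intro h0
      rw [h0, mul_zero] at hAB
      exact hsum0 hAB.symm
    obtain ⟨h1, h2⟩ := H A B hcop hA0 hB0 hAB0
    have hg0 : (0 : ℝ) < g := by exact_mod_cast hg
    -- the bound for `g`
    have hgle : (g : ℝ) ≤ Γ := by
      have d2 : g ∣ δ * y ^ (k + 2) := by
        have : g ∣ -(δ * y ^ (k + 2)) := ⟨B, hB⟩
        exact (dvd_neg.mp this)
      have d3 := g_dvd k p q δ x y g hxy ⟨A, hA⟩ d2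
      have hne : δ * p ^ (k + 2) ≠ 0 := mul_ne_zero hδ (pow_ne_zero _ hp)
      have h5 := Int.le_of_dvd (abs_pos.mpr hne) ((dvd_abs _ _).mpr d3)
      have h6 : (g : ℝ) ≤ ((|δ * p ^ (k + 2)| : ℤ) : ℝ) := by exact_mod_cast h5
      refine h6.trans (le_of_eq ?_)
      push_cast
      rw [hΓ, abs_mul, abs_pow]
    -- the radical
    set R : ℝ := (rad (A * B * (A + B)) : ℝ) with hR
    have hRle : R ≤ L * M * rad (y * G x y) := by
      have hne : (e * δ * X) * (y * G x y) ≠ 0 :=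
        mul_ne_zero (mul_ne_zero (mul_ne_zero he hδ) hX0) hF
      have r1 : rad (A * B * (A + B)) ≤ rad ((e * δ * X) * (y * G x y)) := by
        apply rad_le_of_dvd_pow hne (k + 2)
        have e1 : g ^ 3 * (A * B * (A + B))
            = X ^ (k + 2) * -(δ * y ^ (k + 2)) * (e * G x y) := by
          rw [← hAB, hA, hB]; ring
        refine dvd_trans (Dvd.intro_left (g ^ 3) rfl) ?_
        rw [e1]
        refine ⟨-(δ ^ (k + 1) * e ^ (k + 1) * (G x y) ^ (k + 1)), ?_⟩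
        ring
      have r2 : (rad ((e * δ * X) * (y * G x y)) : ℝ)
          ≤ |((e * δ * X : ℤ) : ℝ)| * rad (y * G x y) :=
        rad_mul_le_abs (mul_ne_zero (mul_ne_zero he hδ) hX0)
      have r3 : |((e * δ * X : ℤ) : ℝ)| ≤ L * M := by
        push_cast
        rw [abs_mul, abs_mul]
        exact mul_le_mul_of_nonneg_left (le_max_left _ _) hL0.le
      calc R ≤ rad ((e * δ * X) * (y * G x y)) := by rw [hR]; exact_mod_cast r1
        _ ≤ |((e * δ * X : ℤ) : ℝ)| * rad (y * G x y) := r2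
        _ ≤ _ := mul_le_mul_of_nonneg_right r3 (by positivity)
    have hM2 : M ^ (k + 2) ≤ Γ * (κ * R ^ (1 + ε)) := by
      have hXX : (X : ℝ) ^ (k + 2) = g * A := by exact_mod_cast hA
      have hYY : -((δ : ℝ) * (y : ℝ) ^ (k + 2)) = g * B := by exact_mod_cast hB
      rcases max_choice |(X : ℝ)| |(y : ℝ)| with hc | hc
      · rw [← hM] at hc
        rw [hc]
        have e5 : |(X : ℝ)| ^ (k + 2) = g * |(A : ℝ)| := by
          have := congrArg abs hXX
          rwa [abs_mul, abs_of_pos hg0, abs_pow] at this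
        rw [e5]
        exact mul_le_mul hgle h1 (abs_nonneg _) hΓ0.le
      · rw [← hM] at hc
        rw [hc]
        have e5 : |(δ : ℝ)| * |(y : ℝ)| ^ (k + 2) = g * |(B : ℝ)| := by
          have := congrArg abs hYY
          rwa [abs_neg, abs_mul, abs_mul, abs_of_pos hg0, abs_pow] at this
        have e6 : |(y : ℝ)| ^ (k + 2) ≤ |(δ : ℝ)| * |(y : ℝ)| ^ (k + 2) :=
          le_mul_of_one_le_left (by positivity) hdR
        calc |(y : ℝ)| ^ (k + 2) ≤ g * |(B : ℝ)| := e6.trans e5.le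
          _ ≤ Γ * (κ * R ^ (1 + ε)) := mul_le_mul hgle h2 (abs_nonneg _) hΓ0.le
    have hM0 : 0 < M := by linarith
    set ρ : ℝ := (rad (y * G x y) : ℝ) with hρ
    have hρ0 : 0 < ρ := by linarith
    have hR0 : 0 ≤ R := by rw [hR]; positivity
    have hM3 : M ^ (N - 1 - ε) ≤ Γ * κ * L ^ (1 + ε) * ρ ^ (1 + ε) := by
      have e7 : R ^ (1 + ε) ≤ (L * M * ρ) ^ (1 + ε) :=
        Real.rpow_le_rpow hR0 hRle (by linarith)
      have e8 : (L * M * ρ) ^ (1 + ε) = L ^ (1 + ε) * M ^ (1 + ε) * ρ ^ (1 + ε) := by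
        rw [Real.mul_rpow (by positivity) hρ0.le, Real.mul_rpow hL0.le hM0.le]
      have e9 : M ^ (k + 2) = M ^ (N - 1 - ε) * M ^ (1 + ε) := by
        rw [← Real.rpow_natCast, ← Real.rpow_add hM0]
        congr 1; rw [hNdef]; push_cast; ring
      have e10 : M ^ (N - 1 - ε) * M ^ (1 + ε)
          ≤ (Γ * κ * L ^ (1 + ε) * ρ ^ (1 + ε)) * M ^ (1 + ε) := by
        rw [← e9]
        refine hM2.trans ?_
        calc Γ * (κ * R ^ (1 + ε)) ≤ Γ * (κ * (L ^ (1 + ε) * M ^ (1 + ε) * ρ ^ (1 + ε))) := by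
              rw [← e8]; gcongr
          _ = _ := by ring
      exact le_of_mul_le_mul_right e10 (by positivity)
    have hM4 : M ^ (N - 1 - ε') ≤ κ₁ * ρ := by
      have h1ε : 0 < 1 + ε := by linarith
      have e11 : M ^ (N - 1 - ε') = (M ^ (N - 1 - ε)) ^ (1 / (1 + ε)) := by
        rw [← Real.rpow_mul hM0.le, hεe]
        congr 1; field_simp
      have e12 : (Γ * κ * L ^ (1 + ε) * ρ ^ (1 + ε)) ^ (1 / (1 + ε)) = κ₁ * ρ := by
        rw [Real.mul_rpow (by positivity) (by positivity), ← Real.rpow_mul hρ0.le,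
          mul_one_div_cancel h1ε.ne', Real.rpow_one]
      rw [e11, ← e12]
      exact Real.rpow_le_rpow (by positivity) hM3 (by positivity)
    calc (max |(x : ℝ)| |(y : ℝ)|) ^ (N - 1 - ε') ≤ ((1 + |(q : ℝ)|) * M) ^ (N - 1 - ε') :=
          Real.rpow_le_rpow hH0 hHM hE0
      _ = C₂ * M ^ (N - 1 - ε') := Real.mul_rpow (by positivity) hM0.le
      _ ≤ C₂ * (κ₁ * ρ) := by gcongr
      _ ≤ _ := by
          have : 0 ≤ C₁ * ρ := by positivity
          rw [add_mul, mul_assoc]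
          linarith

end Pool.Agent.Q245.Vj
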