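import Mathlib

set_option autoImplicit false

namespace Pool.Agent.Q245.Vj

open Finset

/-- the product of the distinct primes which divide `n` -/
def rad (n : ℤ) : ℕ := ∏ p ∈ n.natAbs.primeFactors, p

lemma rad_pos (n : ℤ) : 0 < rad n := by
  unfold rad
  exact Finset.prod_pos fun p hp => (Nat.prime_of_mem_primeFactors hp).pos

lemma one_le_rad (n : ℤ) : (1 : ℝ) ≤ (rad n : ℝ) := by
  exact_mod_cast rad_pos n

lemma rad_le_of_primes {a b : ℤ} (hb : b ≠ 0)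
    (h : ∀ p : ℕ, p.Prime → (p : ℤ) ∣ a → (p : ℤ) ∣ b) : rad a ≤ rad b := by
  unfold rad
  apply Finset.prod_le_prod_of_subset_of_one_le'
  · intro p hp
    rw [Nat.mem_primeFactors] at hp ⊢
    refine ⟨hp.1, ?_, ?_⟩
    · have := h p hp.1 (Int.natCast_dvd.mpr hp.2.1)
      exact Int.natCast_dvd.mp this
    · simpa using hb
  · intro p hp _
    exact (Nat.prime_of_mem_primeFactors hp).one_lt.le

lemma rad_le_of_dvd_pow {a b : ℤ} (hb : b ≠ 0) (N : ℕ) (h : a ∣ b ^ N) : rad a ≤ rad b := by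
  apply rad_le_of_primes hb
  intro p hp hpa
  exact Int.Prime.dvd_pow' hp (hpa.trans h)

lemma rad_le_of_dvd {a b : ℤ} (hb : b ≠ 0) (h : a ∣ b) : rad a ≤ rad b :=
  rad_le_of_dvd_pow hb 1 (by simpa using h)

lemma rad_neg (a : ℤ) : rad (-a) = rad a := by
  unfold rad; rw [Int.natAbs_neg]

lemma rad_mul_le (a b : ℤ) : rad (a * b) ≤ rad a * rad b := by
  by_cases ha : a = 0
  · subst ha; simp [rad]
    exact Nat.one_le_iff_ne_zero.mpr (Finset.prod_ne_zero_iff.mpr fun p hp =>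
      (Nat.prime_of_mem_primeFactors hp).ne_zero)
  by_cases hb : b = 0
  · subst hb; simp [rad]
    exact Nat.one_le_iff_ne_zero.mpr (Finset.prod_ne_zero_iff.mpr fun p hp =>
      (Nat.prime_of_mem_primeFactors hp).ne_zero)
  unfold rad
  rw [Int.natAbs_mul, Nat.primeFactors_mul (by simpa using ha) (by simpa using hb)]
  rw [← Finset.prod_union_inter]
  refine Nat.le_mul_of_pos_right _ ?_
  exact Finset.prod_pos fun p hp =>
    (Nat.prime_of_mem_primeFactors (Finset.mem_inter.mp hp).1).pos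

lemma rad_le_natAbs {a : ℤ} (ha : a ≠ 0) : rad a ≤ a.natAbs := by
  unfold rad
  exact Nat.le_of_dvd (Int.natAbs_pos.mpr ha) (Nat.prod_primeFactors_dvd _)

lemma rad_le_abs {a : ℤ} (ha : a ≠ 0) : (rad a : ℝ) ≤ |(a : ℝ)| := by
  have h := rad_le_natAbs ha
  have h2 : ((a.natAbs : ℕ) : ℝ) = |(a : ℝ)| := by
    rw [Nat.cast_natAbs]; push_cast; rfl
  rw [← h2]; exact_mod_cast h

lemma rad_mul_le' (a b : ℤ) : (rad (a * b) : ℝ) ≤ rad a * rad b := by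
  exact_mod_cast rad_mul_le a b

lemma rad_mul_le_abs {a b : ℤ} (ha : a ≠ 0) : (rad (a * b) : ℝ) ≤ |(a : ℝ)| * rad b :=
  (rad_mul_le' a b).trans (mul_le_mul_of_nonneg_right (rad_le_abs ha) (by positivity))

/-- the `abc` conjecture -/
def ABC : Prop :=
  ∀ ε : ℝ, 0 < ε → ∃ κ : ℝ, ∀ a b : ℤ, 0 < a → 0 < b → IsCoprime a b →
    ((a + b : ℤ) : ℝ) ≤ κ * (rad (a * b * (a + b)) : ℝ) ^ (1 + ε)

/-- the truncated inequality for the divisor `F = 0`, `F` of degree `q` -/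
def Truncated (q : ℕ) (F : ℤ → ℤ → ℤ) : Prop :=
  ∀ ε : ℝ, 0 < ε → ∃ κ : ℝ, ∀ x y : ℤ, IsCoprime x y → F x y ≠ 0 →
    (max |(x : ℝ)| |(y : ℝ)|) ^ ((q : ℝ) - 2 - ε) ≤ κ * rad (F x y)

/-- the form `y (a x² + b x y + c y²)` -/
def cubic (a b c : ℤ) (x y : ℤ) : ℤ := y * (a * x ^ 2 + b * x * y + c * y ^ 2)

/-- the intermediate statement, for the divisor `v (tⁿ - δ vⁿ) = 0` -/
def Tn (n : ℕ) (δ : ℤ) : Prop :=
  ∀ ε : ℝ, 0 < ε → ε < 1 → ∃ κ : ℝ, 0 < κ ∧ ∀ t v : ℤ, IsCoprime t v → v ≠ 0 →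
    t ^ n - δ * v ^ n ≠ 0 →
    (max |(t : ℝ)| |(v : ℝ)|) ^ ((n : ℝ) - 1 - ε) ≤ κ * rad (v * (t ^ n - δ * v ^ n))

/-- the statement for the divisor `x y (yⁿ - xⁿ) = 0` -/
def Four (n : ℕ) : Prop :=
  ∀ ε : ℝ, 0 < ε → ε < 1 → ∃ κ : ℝ, 0 < κ ∧ ∀ x y : ℤ, 0 < x → x < y → IsCoprime x y →
    (y : ℝ) ^ ((n : ℝ) - ε) ≤ κ * rad (x * y * (y ^ n - x ^ n))

lemma one_le_H {x y : ℤ} (h : IsCoprime x y) : (1 : ℝ) ≤ max |(x : ℝ)| |(y : ℝ)| := by
  by_cases hx : x = 0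
  · subst hx
    have hy : y ≠ 0 := by
      rintro rfl
      exact not_isCoprime_zero_zero h
    have : (1 : ℤ) ≤ |y| := Int.one_le_abs hy
    exact le_max_of_le_right (by exact_mod_cast this)
  · have : (1 : ℤ) ≤ |x| := Int.one_le_abs hx
    exact le_max_of_le_left (by exact_mod_cast this)

/-- dividing a pair by its greatest common divisor -/
lemma exists_reduce (X Y : ℤ) (h : ¬ (X = 0 ∧ Y = 0)) :
    ∃ g x y : ℤ, 0 < g ∧ X = g * x ∧ Y = g * y ∧ IsCoprime x y := by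
  have hg : 0 < Int.gcd X Y := by
    rw [Nat.pos_iff_ne_zero]
    intro h0
    rw [Int.gcd_eq_zero_iff] at h0
    exact h h0
  obtain ⟨x, y, h1, h2, h3⟩ := Int.exists_gcd_one hg
  refine ⟨Int.gcd X Y, x, y, by exact_mod_cast hg, by linarith [h2], by linarith [h3], ?_⟩
  rw [Int.isCoprime_iff_gcd_eq_one]; exact h1

end Pool.Agent.Q245.Vj
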